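import Pool.Agent.H98.Izer.Alt

/-!
# Calibration and degree bound for the alternants
-/

namespace Pool.Agent.H98.Izer

open Finset Matrix

variable {R : Type*} [CommRing R]

/-- the reduced determinant -/
def EE (e n : ℕ) (ps ms : R) (p m : Fin (2 * n) → R) : R :=
  det (of fun i k : Fin (2 * n + 1) =>
    (Fin.cons (ps ^ ex e k * ms ^ (3 * n - ex e k)) (fun i => va e (n + 1) k (p i) (m i)) :
      Fin (2 * n + 1) → R) i)

lemma det_last {L : ℕ} (B : Matrix (Fin (L + 1)) (Fin (L + 1)) R)
    (h0 : ∀ k : Fin L, B 0 k.castSucc = 0) :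
    B.det = (-1) ^ L * B 0 (Fin.last L) *
      (B.submatrix Fin.succ Fin.castSucc).det := by
  rw [det_succ_row_zero, Fin.sum_univ_castSucc, Finset.sum_eq_zero, zero_add]
  · rw [Fin.val_last, Fin.succAbove_last]
  · intro k _
    rw [h0]; ring

lemma ex_le' (e : ℕ) (he : e ≤ 2) {n k : ℕ} (hk : k < 2 * n + 1) : ex e k ≤ 3 * n := by
  unfold ex
  rcases Nat.mod_two_eq_zero_or_one k with h | h
  · rw [h, mul_zero]; omega
  · rw [h, mul_one]; omega

lemma ex_lt' (e : ℕ) (he : e ≤ 2) {n k : ℕ} (hk : k < 2 * n) : ex e k < 3 * n := by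
  unfold ex
  rcases Nat.mod_two_eq_zero_or_one k with h | h
  · rw [h, mul_zero]; omega
  · rw [h, mul_one]; omega

lemma ex_lt'' (e : ℕ) (he : 1 ≤ e) (he2 : e ≤ 2) {n k : ℕ} (hk : k < 2 * n + 1) :
    ex e k < 3 * n + e := by
  unfold ex
  rcases Nat.mod_two_eq_zero_or_one k with h | h
  · rw [h, mul_zero]; omega
  · rw [h, mul_one]; omega

lemma ex_two_mul (e n : ℕ) : ex e (2 * n) = 3 * n := by
  unfold ex
  rw [Nat.mul_mod_right, Nat.mul_div_cancel_left _ (by norm_num : 0 < 2)]
  ring

lemma ex_two_mul_add (e n : ℕ) : ex e (2 * n + 1) = 3 * n + e := by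
  unfold ex
  rw [Nat.mul_add_mod, Nat.mul_add_div (by norm_num : 2 > 0)]
  norm_num

theorem alt_cal (e n : ℕ) (he : 1 ≤ e) (he2 : e ≤ 2) (d ps ms : R) (p m : Fin (2 * n) → R) :
    alt e (n + 1) (Fin.cons d (Fin.cons ps p : Fin (2 * n + 1) → R) : Fin (2 * n + 2) → R)
      (Fin.cons 0 (Fin.cons ms m : Fin (2 * n + 1) → R) : Fin (2 * n + 2) → R) =
      -d ^ (3 * n + e) * ms ^ e * EE e n ps ms p m := by
  have hdet : alt e (n + 1) (Fin.cons d (Fin.cons ps p : Fin (2 * n + 1) → R) :
      Fin (2 * n + 2) → R) (Fin.cons 0 (Fin.cons ms m : Fin (2 * n + 1) → R) :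
      Fin (2 * n + 2) → R) = det (of fun i k : Fin (2 * n + 1 + 1) => va e (n + 1) k
        ((Fin.cons d (Fin.cons ps p : Fin (2 * n + 1) → R) : Fin (2 * n + 2) → R) i)
        ((Fin.cons 0 (Fin.cons ms m : Fin (2 * n + 1) → R) : Fin (2 * n + 2) → R) i)) := rfl
  rw [hdet, det_last]
  · have e1 : (of fun i k : Fin (2 * n + 1 + 1) => va e (n + 1) k
        ((Fin.cons d (Fin.cons ps p : Fin (2 * n + 1) → R) : Fin (2 * n + 2) → R) i)
        ((Fin.cons 0 (Fin.cons ms m : Fin (2 * n + 1) → R) : Fin (2 * n + 2) → R) i)) 0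
        (Fin.last (2 * n + 1)) = d ^ (3 * n + e) := by
      simp only [of_apply, Fin.cons_zero, Fin.val_last]
      unfold va
      rw [ex_two_mul_add]
      have : tot e (n + 1) - (3 * n + e) = 0 := by unfold tot; omega
      rw [this, pow_zero, mul_one]
    rw [e1]
    have e2 : ((of fun i k : Fin (2 * n + 1 + 1) => va e (n + 1) k
        ((Fin.cons d (Fin.cons ps p : Fin (2 * n + 1) → R) : Fin (2 * n + 2) → R) i)
        ((Fin.cons 0 (Fin.cons ms m : Fin (2 * n + 1) → R) : Fin (2 * n + 2) → R)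
          i)).submatrix Fin.succ Fin.castSucc) =
        of fun i k : Fin (2 * n + 1) => (Fin.cons (ms ^ e) (fun _ => 1) :
          Fin (2 * n + 1) → R) i * (of fun i k : Fin (2 * n + 1) =>
          (Fin.cons (ps ^ ex e k * ms ^ (3 * n - ex e k)) (fun i => va e (n + 1) k (p i) (m i)) :
            Fin (2 * n + 1) → R) i) i k := by
      ext i k
      simp only [submatrix_apply, of_apply, Fin.cons_succ, Fin.val_castSucc]
      refine Fin.cases ?_ (fun i => ?_) i
      · simp only [Fin.cons_zero]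
        unfold va
        have h1 := ex_le' e he2 k.2
        have : tot e (n + 1) - ex e k = e + (3 * n - ex e k) := by unfold tot; omega
        rw [this, pow_add]
        ring
      · simp only [Fin.cons_succ, one_mul]
    rw [e2, det_mul_column, Fin.prod_univ_succ]
    simp only [Fin.cons_zero, Fin.cons_succ, prod_const_one, mul_one]
    rw [pow_succ, (even_two_mul n).neg_one_pow]
    unfold EE
    ring
  · intro k
    simp only [of_apply, Fin.cons_zero, Fin.val_castSucc]
    unfold va
    have h1 := ex_lt'' e he he2 k.2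
    rw [zero_pow, mul_zero]
    unfold tot
    omega

theorem EE_zero (e n : ℕ) (he2 : e ≤ 2) (ps : R) (p m : Fin (2 * n) → R) :
    EE e n ps 0 p m = ps ^ (3 * n) * (∏ i, m i ^ 3) * alt e n p m := by
  unfold EE
  rw [det_last]
  · simp only [of_apply, Fin.cons_zero, Fin.val_last]
    rw [ex_two_mul, Nat.sub_self, pow_zero, mul_one, (even_two_mul n).neg_one_pow, one_mul]
    have e2 : ((of fun i k : Fin (2 * n + 1) =>
        (Fin.cons (ps ^ ex e k * 0 ^ (3 * n - ex e k)) (fun i => va e (n + 1) k (p i) (m i)) :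
          Fin (2 * n + 1) → R) i).submatrix Fin.succ Fin.castSucc) =
        of fun i k : Fin (2 * n) => m i ^ 3 *
          (of fun i k : Fin (2 * n) => va e n k (p i) (m i)) i k := by
      ext i k
      simp only [submatrix_apply, of_apply, Fin.cons_succ, Fin.val_castSucc]
      rw [va_succ e n k k.2]
    rw [e2, det_mul_column]
    unfold alt
    ring
  · intro k
    simp only [of_apply, Fin.cons_zero, Fin.val_castSucc]
    have h1 := ex_lt' e he2 k.2
    rw [zero_pow, mul_zero]
    omega

lemma map_va {S : Type*} [CommRing S] (φ : R →+* S) (e n k : ℕ) (p m : R) :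
    φ (va e n k p m) = va e n k (φ p) (φ m) := by
  simp [va]

lemma map_alt {S : Type*} [CommRing S] (φ : R →+* S) (e n : ℕ) (p m : Fin (2 * n) → R) :
    φ (alt e n p m) = alt e n (fun i => φ (p i)) (fun i => φ (m i)) := by
  unfold alt
  rw [RingHom.map_det]
  congr 1
  ext i k
  simp only [RingHom.mapMatrix_apply, Matrix.map_apply, of_apply]
  exact map_va φ e n k _ _

lemma map_EE {S : Type*} [CommRing S] (φ : R →+* S) (e n : ℕ) (ps ms : R)
    (p m : Fin (2 * n) → R) :
    φ (EE e n ps ms p m) = EE e n (φ ps) (φ ms) (fun i => φ (p i)) (fun i => φ (m i)) := by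
  unfold EE
  rw [RingHom.map_det]
  congr 1
  ext i k
  simp only [RingHom.mapMatrix_apply, Matrix.map_apply, of_apply]
  refine Fin.cases ?_ (fun i => ?_) i
  · simp only [Fin.cons_zero, map_mul, map_pow]
  · simp only [Fin.cons_succ]
    exact map_va φ e (n + 1) k _ _

section deg

open Polynomial

variable {K : Type*} [Field K]

lemma natDegree_det_row {L d : ℕ} (B : Matrix (Fin (L + 1)) (Fin (L + 1)) K[X])
    (B' : Matrix (Fin L) (Fin (L + 1)) K) (h : ∀ i k, B i.succ k = C (B' i k))
    (h0 : ∀ k, (B 0 k).natDegree ≤ d) : B.det.natDegree ≤ d := by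
  rw [det_succ_row_zero]
  apply natDegree_sum_le_of_forall_le
  intro k _
  have e1 : B.submatrix Fin.succ k.succAbove = (B'.submatrix id k.succAbove).map C := by
    ext i j
    simp [h]
  have e2 : (B.submatrix Fin.succ k.succAbove).det = C (B'.submatrix id k.succAbove).det := by
    rw [e1]
    exact (RingHom.map_det C _).symm
  rw [e2]
  have e3 : ((-1 : K[X]) ^ (k : ℕ)) = C ((-1) ^ (k : ℕ)) := by simp
  rw [e3]
  refine (natDegree_mul_C_le _ _).trans ?_
  refine (natDegree_C_mul_le _ _).trans (h0 k)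

lemma natDegree_alt (e n : ℕ) (r q : K) (p m : Fin (2 * n + 1) → K) :
    (alt e (n + 1) (Fin.cons (C r - X) (fun i => C (p i)) : Fin (2 * n + 2) → K[X])
      (Fin.cons (X - C q) (fun i => C (m i)) : Fin (2 * n + 2) → K[X])).natDegree ≤
      3 * n + e := by
  have hdet : alt e (n + 1) (Fin.cons (C r - X) (fun i => C (p i)) : Fin (2 * n + 2) → K[X])
      (Fin.cons (X - C q) (fun i => C (m i)) : Fin (2 * n + 2) → K[X]) =
      det (of fun i k : Fin (2 * n + 1 + 1) => va e (n + 1) k
        ((Fin.cons (C r - X) (fun i => C (p i)) : Fin (2 * n + 2) → K[X]) i)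
        ((Fin.cons (X - C q) (fun i => C (m i)) : Fin (2 * n + 2) → K[X]) i)) := rfl
  rw [hdet]
  apply natDegree_det_row _ (of fun i k => va e (n + 1) k (p i) (m i))
  · intro i k
    simp only [of_apply, Fin.cons_succ]
    exact (map_va C e (n + 1) k _ _).symm
  · intro k
    simp only [of_apply, Fin.cons_zero]
    unfold va
    have h1 : ex e k ≤ 3 * n + e := by
      have := ex_le e (n := n + 1) (k := k) (by have := k.2; omega)
      omega
    refine natDegree_mul_le.trans ?_
    have d1 : (C r - X : K[X]).natDegree ≤ 1 := by compute_degree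
    have d2 : (X - C q : K[X]).natDegree ≤ 1 := by compute_degree
    have d3 := (natDegree_pow_le (p := (C r - X : K[X])) (n := ex e k)).trans
      (Nat.mul_le_mul_left (ex e k) d1)
    have d4 := (natDegree_pow_le (p := (X - C q : K[X])) (n := tot e (n + 1) - ex e k)).trans
      (Nat.mul_le_mul_left (tot e (n + 1) - ex e k) d2)
    have : tot e (n + 1) = 3 * n + e := by unfold tot; omega
    omega

end deg

end Pool.Agent.H98.Izer
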