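import Mathlib
import Pool.Agent.H98.Izer.Cal

/-!
# Product formulas
-/

namespace Pool.Agent.H98.Izer

open Finset
open scoped Nat

/-- products over pairs -/
lemma pairs_range (N : ℕ) (g : ℕ → ℕ → ℂ) :
    ∏ i : Fin N, ∏ j ∈ Ioi i, g i j = ∏ l ∈ range N, ∏ k ∈ range l, g k l := by
  have h1 : ∏ i : Fin N, ∏ j ∈ Ioi i, g i j = ∏ j : Fin N, ∏ i ∈ Iio j, g i j := by
    apply Finset.prod_comm'
    intro i k
    simp
  rw [h1, ← Fin.prod_univ_eq_prod_range (fun l => ∏ k ∈ range l, g k l) N]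
  refine prod_congr rfl fun j _ => ?_
  refine Finset.prod_bij' (fun a _ => (a : ℕ))
    (fun a ha => ⟨a, lt_trans (Finset.mem_range.1 ha) j.2⟩) ?_ ?_ ?_ ?_ ?_
  · intro a ha
    simpa using ha
  · intro a ha
    simp at ha ⊢
    exact ha
  · intro a _
    rfl
  · intro a _
    rfl
  · intro a _
    rfl

lemma prod_two (h : ℕ → ℂ) (n : ℕ) :
    ∏ k ∈ range (2 * n), h k = ∏ j ∈ range n, (h (2 * j) * h (2 * j + 1)) := by
  induction n with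
  | zero => simp
  | succ n ih =>
    rw [show 2 * (n + 1) = 2 * n + 1 + 1 by ring, prod_range_succ, prod_range_succ, ih,
      prod_range_succ]
    ring

lemma prod_reflect (f : ℂ → ℂ) (m : ℕ) :
    ∏ k ∈ range m, f ((m : ℂ) - k) = ∏ k ∈ range m, f ((k : ℂ) + 1) := by
  rw [← Finset.prod_range_reflect]
  refine prod_congr rfl fun k hk => ?_
  have := mem_range.1 hk
  have h8 : m = (m - 1 - k) + (k + 1) := by omega
  have h9 : (m : ℂ) = ((m - 1 - k : ℕ) : ℂ) + ((k : ℂ) + 1) := by exact_mod_cast h8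
  congr 1
  linear_combination h9

lemma prod_fact (m : ℕ) : ∏ k ∈ range m, ((m : ℂ) - k) = (m ! : ℂ) := by
  rw [prod_reflect (fun z => z), ← Finset.prod_range_add_one_eq_factorial]
  push_cast
  rfl

/-- the pair product -/
noncomputable def GG (n : ℕ) : ℂ := ∏ l ∈ range (2 * n), ∏ k ∈ range l,
  (((ex 1 l : ℕ) : ℂ) - ((ex 1 k : ℕ) : ℂ)) * (((ex 2 l : ℕ) : ℂ) - ((ex 2 k : ℕ) : ℂ)) /
    (((l : ℕ) : ℂ) - ((k : ℕ) : ℂ)) ^ 2

lemma WW (n : ℕ) : (∏ j ∈ range n, ((3 * ((j : ℂ) + 1)) * (3 * ((j : ℂ) + 1) - 1)) *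
      ((3 * ((j : ℂ) + 1)) * (3 * ((j : ℂ) + 1) - 2))) *
    ((∏ j ∈ range n, (((3 * ((j : ℂ) + 1)) + 1) * (3 * ((j : ℂ) + 1))) *
      (((3 * ((j : ℂ) + 1)) + 2) * (3 * ((j : ℂ) + 1)))) * 2) =
    9 ^ n * (n ! : ℂ) ^ 2 * ((3 * n)! : ℂ) * ((3 * n + 2)! : ℂ) := by
  induction n with
  | zero => simp [Nat.factorial]
  | succ n ih =>
    rw [prod_range_succ, prod_range_succ, show 3 * (n + 1) = 3 * n + 3 by ring,
      show 3 * n + 3 + 2 = (3 * n + 2) + 3 by ring]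
    have e1 : ((3 * n + 3)! : ℂ) = (3 * n + 3) * (3 * n + 2) * (3 * n + 1) * ((3 * n)! : ℂ) := by
      rw [show 3 * n + 3 = (3 * n + 2) + 1 by ring, Nat.factorial_succ, Nat.factorial_succ,
        Nat.factorial_succ]
      push_cast
      ring
    have e2 : ((3 * n + 2 + 3)! : ℂ) = (3 * n + 5) * (3 * n + 4) * (3 * n + 3) *
        ((3 * n + 2)! : ℂ) := by
      rw [show 3 * n + 2 + 3 = ((3 * n + 2) + 2) + 1 by ring, Nat.factorial_succ (3 * n + 2 + 2),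
        Nat.factorial_succ (3 * n + 2 + 1), Nat.factorial_succ (3 * n + 2)]
      push_cast
      ring
    rw [e1, e2, Nat.factorial_succ n, pow_succ]
    push_cast
    linear_combination (3 * (n : ℂ) + 3) ^ 4 * (3 * n + 2) * (3 * n + 1) * (3 * n + 4) *
      (3 * n + 5) * ih

lemma GG_succ (n : ℕ) : GG (n + 1) = GG n * (9 ^ n * (n ! : ℂ) ^ 2 * ((3 * n)! : ℂ) *
    ((3 * n + 2)! : ℂ) / (((2 * n)! : ℂ) ^ 2 * ((2 * n + 1)! : ℂ) ^ 2)) := by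
  unfold GG
  rw [show 2 * (n + 1) = 2 * n + 1 + 1 by ring, prod_range_succ, prod_range_succ, mul_assoc]
  congr 1
  rw [prod_div_distrib, prod_div_distrib, prod_pow, prod_pow]
  have d1 := prod_fact (2 * n)
  have d2 := prod_fact (2 * n + 1)
  rw [d1, d2, div_mul_div_comm]
  congr 1
  have n1 : ∏ k ∈ range (2 * n), (((ex 1 (2 * n) : ℕ) : ℂ) - ((ex 1 k : ℕ) : ℂ)) *
      (((ex 2 (2 * n) : ℕ) : ℂ) - ((ex 2 k : ℕ) : ℂ)) =
      ∏ j ∈ range n, ((3 * ((j : ℂ) + 1)) * (3 * ((j : ℂ) + 1) - 1)) *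
      ((3 * ((j : ℂ) + 1)) * (3 * ((j : ℂ) + 1) - 2)) := by
    rw [prod_two, ← prod_reflect (fun z => ((3 * z) * (3 * z - 1)) * ((3 * z) * (3 * z - 2)))]
    refine prod_congr rfl fun j _ => ?_
    rw [ex_two_mul, ex_two_mul, ex_two_mul, ex_two_mul, ex_two_mul_add, ex_two_mul_add]
    push_cast
    ring
  have n2 : ∏ k ∈ range (2 * n + 1), (((ex 1 (2 * n + 1) : ℕ) : ℂ) - ((ex 1 k : ℕ) : ℂ)) *
      (((ex 2 (2 * n + 1) : ℕ) : ℂ) - ((ex 2 k : ℕ) : ℂ)) =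
      (∏ j ∈ range n, (((3 * ((j : ℂ) + 1)) + 1) * (3 * ((j : ℂ) + 1))) *
      (((3 * ((j : ℂ) + 1)) + 2) * (3 * ((j : ℂ) + 1)))) * 2 := by
    rw [prod_range_succ, prod_two,
      ← prod_reflect (fun z => (((3 * z) + 1) * (3 * z)) * (((3 * z) + 2) * (3 * z)))]
    rw [ex_two_mul, ex_two_mul, ex_two_mul_add, ex_two_mul_add]
    have : ((((3 * n + 1 : ℕ) : ℂ)) - ((3 * n : ℕ) : ℂ)) * ((((3 * n + 2 : ℕ) : ℂ)) -
        ((3 * n : ℕ) : ℂ)) = 2 := by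
      push_cast
      ring
    rw [this]
    congr 1
    refine prod_congr rfl fun j _ => ?_
    rw [ex_two_mul, ex_two_mul, ex_two_mul_add, ex_two_mul_add]
    push_cast
    ring
  rw [n1, n2, WW]

/-- ASM numbers -/
noncomputable def AA (N : ℕ) : ℂ := ∏ j ∈ range N, (((3 * j + 1)! : ℕ) : ℂ) / (((N + j)! : ℕ) : ℂ)

lemma AA_succ (N : ℕ) : AA (N + 1) = AA N * ((N ! : ℂ) * ((3 * N + 1)! : ℂ) /
    (((2 * N)! : ℂ) * ((2 * N + 1)! : ℂ))) := by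
  have hf : ∀ n : ℕ, (n ! : ℂ) ≠ 0 := fun n => by exact_mod_cast Nat.factorial_ne_zero n
  unfold AA
  rw [prod_div_distrib, prod_div_distrib, prod_range_succ]
  have h1 : (N ! : ℂ) * ∏ j ∈ range (N + 1), (((N + 1 + j)! : ℕ) : ℂ) =
      (∏ j ∈ range N, (((N + j)! : ℕ) : ℂ)) * ((2 * N)! : ℂ) * ((2 * N + 1)! : ℂ) := by
    have h2 : ∏ j ∈ range (N + 1 + 1), (((N + j)! : ℕ) : ℂ) =
        (N ! : ℂ) * ∏ j ∈ range (N + 1), (((N + 1 + j)! : ℕ) : ℂ) := by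
      rw [prod_range_succ', mul_comm, add_zero]
      congr 1
      refine prod_congr rfl fun j _ => ?_
      rw [show N + (j + 1) = N + 1 + j by ring]
    rw [← h2, prod_range_succ, prod_range_succ, show N + N = 2 * N by ring,
      show N + (N + 1) = 2 * N + 1 by ring]
  have h3 : (∏ j ∈ range (N + 1), (((N + 1 + j)! : ℕ) : ℂ)) ≠ 0 :=
    prod_ne_zero_iff.2 fun j _ => hf _
  have h4 : (∏ j ∈ range N, (((N + j)! : ℕ) : ℂ)) ≠ 0 :=
    prod_ne_zero_iff.2 fun j _ => hf _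
  have h5 := hf N
  have h6 := hf (2 * N)
  have h7 := hf (2 * N + 1)
  have h8 := hf (3 * N + 1)
  field_simp
  linear_combination -(∏ j ∈ range N, (((3 * j + 1)! : ℕ) : ℂ)) * h1

/-- `A_HT(2 n)` -/
noncomputable def BB (n : ℕ) : ℂ := AA n ^ 2 * ∏ k ∈ range n, ((3 * (k : ℂ) + 2) / (3 * k + 1))

lemma BB_succ (n : ℕ) : BB (n + 1) = BB n * ((n ! : ℂ) ^ 2 * ((3 * n)! : ℂ) *
    ((3 * n + 2)! : ℂ) / (((2 * n)! : ℂ) ^ 2 * ((2 * n + 1)! : ℂ) ^ 2)) := by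
  have hf : ∀ n : ℕ, (n ! : ℂ) ≠ 0 := fun n => by exact_mod_cast Nat.factorial_ne_zero n
  unfold BB
  rw [AA_succ, prod_range_succ]
  have h6 := hf (2 * n)
  have h7 := hf (2 * n + 1)
  have h8 : ((3 * n + 1)! : ℂ) = (3 * n + 1) * ((3 * n)! : ℂ) := by
    rw [Nat.factorial_succ]; push_cast; ring
  have h9 : ((3 * n + 2)! : ℂ) = (3 * n + 2) * (3 * n + 1) * ((3 * n)! : ℂ) := by
    rw [Nat.factorial_succ, Nat.factorial_succ]; push_cast; ring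
  have h10 : (3 * (n : ℂ) + 1) ≠ 0 := by exact_mod_cast Nat.succ_ne_zero (3 * n)
  rw [h8, h9]
  field_simp

end Pool.Agent.H98.Izer
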