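import Pool.Agent.H98.Izer.Val
import Pool.Agent.H98.Izer.Prod

/-!
# det (q + P_{2n}) at a primitive sixth root of unity q
-/

namespace Pool.Agent.H98.Izer

open Finset
open scoped Nat
open Pool.Agent.H23.BO (pascal prod_pairs)

lemma pair_count_succ (n : ℕ) : (n + 1) * (2 * (n + 1) - 1) = n * (2 * n - 1) + (4 * n + 1) := by
  rcases n with _ | m
  · rfl
  · have h1 : 2 * (m + 1 + 1) - 1 = 2 * m + 3 := by omega
    have h2 : 2 * (m + 1) - 1 = 2 * m + 1 := by omega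
    rw [h1, h2]
    ring

lemma normal (n : ℕ) : (3 : ℂ) ^ (n * (2 * n - 1)) * cc ℂ n * GG n = BB n := by
  induction n with
  | zero => simp [cc, GG, BB, AA]
  | succ n ih =>
    rw [pair_count_succ, cc_succ, GG_succ, BB_succ, ← ih, pow_add]
    have h3 : (3 : ℂ) ^ (4 * n + 1) * ((3 : ℂ) ^ (6 * n + 1))⁻¹ * 9 ^ n = 1 := by
      have h9 : (9 : ℂ) ^ n = 3 ^ (2 * n) := by
        rw [pow_mul]; norm_num
      have h4 : (3 : ℂ) ^ (6 * n + 1) = 3 ^ (4 * n + 1) * 3 ^ (2 * n) := by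
        rw [← pow_add]
        congr 1
        ring
      rw [h9, h4]
      have h5 : (3 : ℂ) ^ (4 * n + 1) ≠ 0 := pow_ne_zero _ (by norm_num)
      have h6 : (3 : ℂ) ^ (2 * n) ≠ 0 := pow_ne_zero _ (by norm_num)
      field_simp
    linear_combination ((3 : ℂ) ^ (n * (2 * n - 1)) * cc ℂ n * GG n * ((n ! : ℂ) ^ 2 *
      ((3 * n)! : ℂ) * ((3 * n + 2)! : ℂ) / (((2 * n)! : ℂ) ^ 2 * ((2 * n + 1)! : ℂ) ^ 2))) * h3

lemma sc_prod {q : ℂ} (hq : q ^ 2 - q + 1 = 0) (n : ℕ) :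
    sc 1 n (1 - q) q (fun _ => 1 / 2) * sc 2 n (1 - q) q (fun _ => 1 / 2) =
      (9 / 4) ^ (n * (2 * n - 1)) * GG n := by
  have h1 := sc_half 1 n le_rfl (by norm_num) q
  have h2 := sc_half 2 n (by norm_num) le_rfl q
  have hs : (2 * q - 1) ^ 2 = -3 := by linear_combination 4 * hq
  have hs' : (1 - 2 * q) ^ 2 = -3 := by linear_combination 4 * hq
  have hq2 : 2 * q - 1 ≠ 0 := by
    intro h
    rw [h] at hs
    norm_num at hs
  -- the pair products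
  have hG : GG n = (∏ i : Fin (2 * n), ∏ j ∈ Ioi i,
      (((ex 1 j : ℕ) : ℂ) - ((ex 1 i : ℕ) : ℂ))) * (∏ i : Fin (2 * n), ∏ j ∈ Ioi i,
      (((ex 2 j : ℕ) : ℂ) - ((ex 2 i : ℕ) : ℂ))) / (∏ i : Fin (2 * n), ∏ j ∈ Ioi i,
      (((j : ℕ) : ℂ) - ((i : ℕ) : ℂ))) ^ 2 := by
    unfold GG
    rw [← pairs_range (2 * n) fun k l => (((ex 1 l : ℕ) : ℂ) - ((ex 1 k : ℕ) : ℂ)) *
      (((ex 2 l : ℕ) : ℂ) - ((ex 2 k : ℕ) : ℂ)) / (((l : ℕ) : ℂ) - ((k : ℕ) : ℂ)) ^ 2]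
    rw [← prod_mul_distrib, ← prod_pow, ← prod_div_distrib]
    refine prod_congr rfl fun i _ => ?_
    rw [← prod_mul_distrib, ← prod_pow, ← prod_div_distrib]
  set V : ℂ := ∏ i : Fin (2 * n), ∏ j ∈ Ioi i, (((j : ℕ) : ℂ) - ((i : ℕ) : ℂ)) with hV
  set V1 : ℂ := ∏ i : Fin (2 * n), ∏ j ∈ Ioi i, (((ex 1 j : ℕ) : ℂ) - ((ex 1 i : ℕ) : ℂ)) with hV1
  set V2 : ℂ := ∏ i : Fin (2 * n), ∏ j ∈ Ioi i, (((ex 2 j : ℕ) : ℂ) - ((ex 2 i : ℕ) : ℂ)) with hV2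
  have hVne : V ≠ 0 := by
    rw [hV]
    refine prod_ne_zero_iff.2 fun i _ => prod_ne_zero_iff.2 fun j hj => ?_
    have hij : (i : ℕ) < j := (show i < j from mem_Ioi.1 hj)
    rw [sub_ne_zero]
    intro h
    have h2 : (j : ℕ) = (i : ℕ) := by exact_mod_cast h
    omega
  have hsplit : ∏ i : Fin (2 * n), ∏ j ∈ Ioi i, ((2 * q - 1) / 4 * (((j : ℕ) : ℂ) -
      ((i : ℕ) : ℂ))) = ((2 * q - 1) / 4) ^ (n * (2 * n - 1)) * V := by
    rw [← prod_pairs, hV, ← prod_mul_distrib]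
    refine prod_congr rfl fun i _ => ?_
    rw [← prod_mul_distrib]
  rw [hsplit, prod_const, card_univ, Fintype.card_fin] at h1 h2
  set N := n * (2 * n - 1) with hN
  have hexp : tot 1 n * (2 * n) + tot 2 n * (2 * n) = 2 * (3 * N) := by
    rcases n with _ | m
    · rfl
    · have t1 : tot 1 (m + 1) = 3 * m + 1 := by unfold tot; omega
      have t2 : tot 2 (m + 1) = 3 * m + 2 := by unfold tot; omega
      have t3 : 2 * (m + 1) - 1 = 2 * m + 1 := by omega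
      rw [hN, t1, t2, t3]
      ring
  have hA : (((1 - 2 * q) / 2) ^ tot 1 n) ^ (2 * n) * (((1 - 2 * q) / 2) ^ tot 2 n) ^ (2 * n) =
      (-(27 / 64)) ^ N := by
    rw [← pow_mul, ← pow_mul, ← pow_add, hexp, pow_mul, pow_mul, div_pow, hs']
    norm_num
  have hB : (((2 * q - 1) / 4) ^ N) * (((2 * q - 1) / 4) ^ N) = (-(3 / 16)) ^ N := by
    rw [← mul_pow]
    congr 1
    linear_combination hs / 16
  have hC : (-(27 / 64) : ℂ) ^ N = (9 / 4) ^ N * (-(3 / 16)) ^ N := by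
    rw [← mul_pow]
    norm_num
  have hBne : (-(3 / 16) : ℂ) ^ N ≠ 0 := pow_ne_zero _ (by norm_num)
  rw [hG]
  have h3 : (-(3 / 16) : ℂ) ^ N * (V ^ 2 * (sc 1 n (1 - q) q (fun _ => 1 / 2) *
      sc 2 n (1 - q) q (fun _ => 1 / 2))) = (-(3 / 16) : ℂ) ^ N * ((9 / 4) ^ N * (V1 * V2)) := by
    calc (-(3 / 16) : ℂ) ^ N * (V ^ 2 * (sc 1 n (1 - q) q (fun _ => 1 / 2) *
        sc 2 n (1 - q) q (fun _ => 1 / 2))) =
          (((2 * q - 1) / 4) ^ N * V * sc 1 n (1 - q) q (fun _ => 1 / 2)) *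
          (((2 * q - 1) / 4) ^ N * V * sc 2 n (1 - q) q (fun _ => 1 / 2)) := by
            rw [← hB]; ring
      _ = ((((1 - 2 * q) / 2) ^ tot 1 n) ^ (2 * n) * (((1 - 2 * q) / 2) ^ tot 2 n) ^ (2 * n)) *
          (V1 * V2) := by rw [h1, h2]; ring
      _ = _ := by rw [hA, hC]; ring
  have h4 := mul_left_cancel₀ hBne h3
  field_simp
  linear_combination h4

/-- **TA-T2.** -/
theorem det_pascal_q (n : ℕ) (q : ℂ) (hq : q ^ 2 - q + 1 = 0) :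
    (q • (1 : Matrix (Fin (2 * n)) (Fin (2 * n)) ℂ) +
      Matrix.of fun i j : Fin (2 * n) => ((((i : ℕ) + j).choose i : ℕ) : ℂ)).det =
      q ^ n * ((∏ j ∈ range n, (((3 * j + 1)! : ℕ) : ℂ) / (((n + j)! : ℕ) : ℂ)) ^ 2 *
        ∏ k ∈ range n, ((3 * (k : ℂ) + 2) / (3 * k + 1))) ^ 2 := by
  have hq0 : q ≠ 0 := by
    rintro rfl
    simp at hq
  have h1 := SS_half_sq hq n
  have h2 := sc_prod hq n
  have h3 : SS q n (fun _ => 1 / 2) = cc ℂ n * ((9 / 4) ^ (n * (2 * n - 1)) * GG n) := by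
    unfold SS
    rw [h2]
  have h4 := normal n
  change _ = q ^ n * BB n ^ 2
  rw [← h4]
  rw [h3] at h1
  set N := n * (2 * n - 1) with hN
  have hqn : q ^ n ≠ 0 := pow_ne_zero _ hq0
  have h5 : ((9 / 16 : ℂ)) ^ N ≠ 0 := pow_ne_zero _ (by norm_num)
  have h6 : ((9 / 4 : ℂ) ^ N) ^ 2 = (9 / 16) ^ N * (3 ^ N) ^ 2 := by
    rw [← pow_mul, ← pow_mul, mul_comm N 2, pow_mul (9 / 4 : ℂ) 2 N, pow_mul (3 : ℂ) 2 N,
      ← mul_pow]
    norm_num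
  have h7 : (q • (1 : Matrix (Fin (2 * n)) (Fin (2 * n)) ℂ) + pascal (2 * n)).det =
      q ^ n * (3 ^ N * cc ℂ n * GG n) ^ 2 := by
    apply mul_left_cancel₀ h5
    apply mul_left_cancel₀ (inv_ne_zero hqn)
    have h8 : (q ^ n)⁻¹ * q ^ n = 1 := inv_mul_cancel₀ hqn
    linear_combination -h1 + (cc ℂ n * GG n) ^ 2 * h6 -
      (9 / 16) ^ N * (3 ^ N * cc ℂ n * GG n) ^ 2 * h8
  exact h7

end Pool.Agent.H98.Izer
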