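import Pool.Agent.H98.Izer.Asym2
import Pool.Agent.H98.Izer.Final
import Pool.Agent.H83.TA.Det

/-!
# Power law for the ratio
-/

namespace Pool.Agent.H98.Izer

open Finset Filter Topology
open scoped Nat

/-- logarithm of the normalised ratio -/
noncomputable def uu (k : ℕ) : ℝ := Real.log ((k : ℝ) + 1) / 4 + Real.log (rR (k + 1))

/-- increments -/
noncomputable def dd (k : ℕ) : ℝ := Real.log (rho (k + 1)) +
  (Real.log ((k : ℝ) + 2) - Real.log ((k : ℝ) + 1)) / 4

lemma uu_succ (k : ℕ) : uu (k + 1) = uu k + dd k := by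
  unfold uu dd
  rw [rR_succ (k + 1), Real.log_mul (rR_pos _).ne' (rho_pos _).ne']
  push_cast
  rw [show (k : ℝ) + 1 + 1 = k + 2 by ring]
  ring

lemma dd_tendsto : Tendsto dd atTop (𝓝 0) := by
  have h1 : Tendsto (fun k : ℕ => Real.log (rho (k + 1))) atTop (𝓝 0) := by
    have h := (rho_tendsto.comp (tendsto_add_atTop_nat 1))
    have h2 := (Real.continuousAt_log one_ne_zero).tendsto.comp h
    rw [Real.log_one] at h2
    exact h2
  have h3 : Tendsto (fun k : ℕ => Real.log (((k : ℝ) + 2) / ((k : ℝ) + 1))) atTop (𝓝 0) := by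
    have h4 : Tendsto (fun k : ℕ => ((k : ℝ) + 2) / ((k : ℝ) + 1)) atTop (𝓝 1) := by
      have h5 := (tendsto_one_div_add_atTop_nhds_zero_nat (𝕜 := ℝ)).const_add 1
      rw [add_zero] at h5
      refine h5.congr fun k => ?_
      have : ((k : ℝ) + 1) ≠ 0 := by positivity
      field_simp
      ring
    have h2 := (Real.continuousAt_log one_ne_zero).tendsto.comp h4
    rw [Real.log_one] at h2
    exact h2
  have h5 := h1.add (h3.div_const 4)
  rw [zero_div, add_zero] at h5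
  refine h5.congr fun k => ?_
  unfold dd
  rw [Real.log_div (by positivity) (by positivity)]

lemma dd_diff (k : ℕ) : |dd (k + 1) - dd k| ≤ 1 / ((k : ℝ) + 2) ^ 4 := by
  set x : ℝ := 1 / ((k : ℝ) + 2) ^ 2 with hx
  have hk : (0 : ℝ) ≤ k := Nat.cast_nonneg k
  have hx0 : 0 < x := by positivity
  have hx1 : x ≤ 1 / 4 := by
    rw [hx, div_le_div_iff₀ (by positivity) (by norm_num)]
    nlinarith
  obtain ⟨k1, k2, k3⟩ := kap_bounds x hx0.le hx1
  have h1 : dd (k + 1) - dd k = Real.log (kap x) + Real.log (1 - x) / 4 := by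
    unfold dd
    have e1 : rho (k + 1 + 1) = rho (k + 1) * kap x := by
      rw [rho_succ (k + 1), hx]
      push_cast
      rw [show (k : ℝ) + 1 + 1 = k + 2 by ring]
    have e2 : 1 - x = (((k : ℝ) + 3) * ((k : ℝ) + 1)) / (((k : ℝ) + 2) * ((k : ℝ) + 2)) := by
      rw [hx]
      field_simp
      ring
    rw [e1, Real.log_mul (rho_pos _).ne' k1.ne', e2, Real.log_div (by positivity) (by positivity),
      Real.log_mul (by positivity) (by positivity), Real.log_mul (by positivity) (by positivity)]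
    push_cast
    rw [show (k : ℝ) + 1 + 2 = k + 3 by ring, show (k : ℝ) + 1 + 1 = k + 2 by ring]
    ring
  have h2 : 1 / ((k : ℝ) + 2) ^ 4 = x ^ 2 := by
    rw [hx]
    field_simp
  have hx2 : 0 < 1 - x := by linarith
  have u1 := Real.log_le_sub_one_of_pos k1
  have u2 := Real.log_le_sub_one_of_pos hx2
  have l1 := Real.one_sub_inv_le_log_of_pos k1
  have l2 := Real.one_sub_inv_le_log_of_pos hx2
  rw [← one_div] at l1
  have l3 : (1 - x)⁻¹ ≤ 1 + x + 2 * x ^ 2 := by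
    rw [inv_le_iff_one_le_mul₀ hx2]
    nlinarith
  rw [h1, h2, abs_le]
  constructor
  · nlinarith
  · nlinarith

lemma dd_bound (k : ℕ) : |dd k| ≤ 1 / ((k : ℝ) + 1) ^ 2 := by
  have h1 : ∀ N : ℕ, |dd k - dd (k + N)| ≤ 1 / ((k : ℝ) + 1) ^ 2 - 1 / ((k : ℝ) + N + 1) ^ 2 := by
    intro N
    induction N with
    | zero => simp
    | succ N ih =>
      have h2 := dd_diff (k + N)
      have h3 : |dd k - dd (k + (N + 1))| ≤ |dd k - dd (k + N)| + |dd (k + N + 1) - dd (k + N)| := by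
        have e : dd k - dd (k + (N + 1)) = (dd k - dd (k + N)) - (dd (k + N + 1) - dd (k + N)) := by
          rw [← add_assoc]; ring
        rw [e]
        exact abs_sub _ _
      have h4 : 1 / ((((k + N : ℕ) : ℝ)) + 2) ^ 4 ≤ 1 / ((k : ℝ) + N + 1) ^ 2 -
          1 / ((k : ℝ) + ((N + 1 : ℕ) : ℝ) + 1) ^ 2 := by
        push_cast
        have hk : (0 : ℝ) ≤ (k : ℝ) + N := by positivity
        rw [show (k : ℝ) + (N + 1) + 1 = (k : ℝ) + N + 2 by ring]
        generalize (k : ℝ) + N = y at hk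
        have e1 : 1 / (y + 1) ^ 2 - 1 / (y + 2) ^ 2 - 1 / (y + 2) ^ 4 =
            ((2 * y + 3) * (y + 2) ^ 2 - (y + 1) ^ 2) / ((y + 1) ^ 2 * (y + 2) ^ 4) := by
          field_simp
          ring
        have e2 : 0 ≤ ((2 * y + 3) * (y + 2) ^ 2 - (y + 1) ^ 2) /
            ((y + 1) ^ 2 * (y + 2) ^ 4) := by
          apply div_nonneg _ (by positivity)
          nlinarith [mul_nonneg hk hk, mul_nonneg hk (mul_nonneg hk hk)]
        linarith
      linarith
  have h2 : Tendsto (fun N : ℕ => |dd k - dd (k + N)|) atTop (𝓝 |dd k - 0|) := by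
    have h3 : Tendsto (fun N : ℕ => dd (k + N)) atTop (𝓝 0) := by
      have := dd_tendsto.comp (tendsto_add_atTop_nat k)
      refine this.congr fun N => ?_
      simp [add_comm]
    exact (h3.const_sub (dd k)).abs
  rw [sub_zero] at h2
  refine le_of_tendsto h2 (Eventually.of_forall fun N => ?_)
  refine (h1 N).trans ?_
  have : (0 : ℝ) ≤ 1 / ((k : ℝ) + N + 1) ^ 2 := by positivity
  linarith

lemma dd_summable : Summable dd := by
  refine Summable.of_norm_bounded (g := fun k : ℕ => 1 / ((k : ℝ) + 1) ^ 2) ?_ fun k => ?_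
  · have := (summable_nat_add_iff 1).2 (Real.summable_one_div_nat_pow.2 (by norm_num : 1 < 2))
    simpa using this
  · rw [Real.norm_eq_abs]
    exact dd_bound k

lemma uu_tendsto : ∃ l, Tendsto uu atTop (𝓝 l) := by
  have h := dd_summable.hasSum.tendsto_sum_nat
  refine ⟨uu 0 + ∑' k, dd k, ?_⟩
  have h1 : ∀ n, uu n = uu 0 + ∑ k ∈ range n, dd k := by
    intro n
    induction n with
    | zero => simp
    | succ n ih => rw [uu_succ, ih, sum_range_succ]; ring
  have h2 := h.const_add (uu 0)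
  exact h2.congr fun n => (h1 n).symm

/-- **TA-T3**: the power law. -/
theorem rR_tendsto : ∃ c : ℝ, 0 < c ∧
    Tendsto (fun n : ℕ => (n : ℝ) ^ (1 / 4 : ℝ) * rR n) atTop (𝓝 c) := by
  obtain ⟨l, hl⟩ := uu_tendsto
  refine ⟨Real.exp l, Real.exp_pos l, ?_⟩
  rw [← tendsto_add_atTop_iff_nat 1]
  refine ((Real.continuous_exp.tendsto l).comp hl).congr fun k => ?_
  have hk : (0 : ℝ) < (k : ℝ) + 1 := by positivity
  simp only [Function.comp_apply]
  unfold uu
  rw [Real.exp_add, Real.exp_log (rR_pos _)]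
  congr 1
  push_cast
  rw [Real.rpow_def_of_pos hk]
  congr 1
  ring

/-- **TA-T3**: two-sided bounds. -/
theorem rR_bounds : ∃ c C : ℝ, 0 < c ∧ 0 < C ∧ ∀ n : ℕ, 1 ≤ n →
    c * (n : ℝ) ^ (-(1 / 4) : ℝ) ≤ rR n ∧ rR n ≤ C * (n : ℝ) ^ (-(1 / 4) : ℝ) := by
  obtain ⟨l, hl⟩ := uu_tendsto
  obtain ⟨B, hB⟩ := hl.bddAbove_range
  obtain ⟨b, hb⟩ := hl.bddBelow_range
  refine ⟨Real.exp b, Real.exp B, Real.exp_pos _, Real.exp_pos _, fun n hn => ?_⟩
  obtain ⟨k, rfl⟩ : ∃ k, n = k + 1 := ⟨n - 1, by omega⟩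
  have h1 : uu k ≤ B := hB ⟨k, rfl⟩
  have h2 : b ≤ uu k := hb ⟨k, rfl⟩
  have hk : (0 : ℝ) < ((k + 1 : ℕ) : ℝ) := by positivity
  have e : Real.exp (uu k) * (((k + 1 : ℕ) : ℝ)) ^ (-(1 / 4) : ℝ) = rR (k + 1) := by
    unfold uu
    rw [Real.exp_add, Real.exp_log (rR_pos _), Real.rpow_def_of_pos hk]
    have e1 : Real.exp (Real.log ((k : ℝ) + 1) / 4) *
        Real.exp (Real.log (((k + 1 : ℕ) : ℝ)) * (-(1 / 4))) = 1 := by
      rw [← Real.exp_add]
      push_cast
      rw [show Real.log ((k : ℝ) + 1) / 4 + Real.log ((k : ℝ) + 1) * (-(1 / 4)) = 0 by ring,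
        Real.exp_zero]
    linear_combination (rR (k + 1)) * e1
  have hp : 0 ≤ (((k + 1 : ℕ) : ℝ)) ^ (-(1 / 4) : ℝ) := Real.rpow_nonneg hk.le _
  constructor
  · rw [← e]
    exact mul_le_mul_of_nonneg_right (Real.exp_le_exp.2 h2) hp
  · rw [← e]
    exact mul_le_mul_of_nonneg_right (Real.exp_le_exp.2 h1) hp

lemma AA_ofReal (N : ℕ) : AA N = ((aR N : ℝ) : ℂ) := by
  unfold AA aR
  push_cast
  rfl

lemma BB_ofReal (n : ℕ) : BB n = ((bR n : ℝ) : ℂ) := by
  unfold BB bR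
  rw [AA_ofReal]
  push_cast
  rfl

/-- the ratio of the two determinants -/
theorem det_ratio (n : ℕ) (w q : ℂ) (hw : w ^ 2 + w + 1 = 0) (hq : q ^ 2 - q + 1 = 0) :
    ‖(w • (1 : Matrix (Fin (2 * n)) (Fin (2 * n)) ℂ) +
      Matrix.of fun i j : Fin (2 * n) => ((((i : ℕ) + j).choose i : ℕ) : ℂ)).det‖ /
    ‖(q • (1 : Matrix (Fin (2 * n)) (Fin (2 * n)) ℂ) +
      Matrix.of fun i j : Fin (2 * n) => ((((i : ℕ) + j).choose i : ℕ) : ℂ)).det‖ = rR n := by
  have hwn : ‖w‖ = 1 := by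
    have h : w ^ 3 = 1 := by linear_combination (w - 1) * hw
    have h2 : ‖w‖ ^ 3 = 1 := by rw [← norm_pow, h, norm_one]
    exact (pow_eq_one_iff_of_nonneg (norm_nonneg w) (by norm_num)).1 h2
  have hqn : ‖q‖ = 1 := by
    have h : q ^ 3 = -1 := by linear_combination (q + 1) * hq
    have h2 : ‖q‖ ^ 3 = 1 := by rw [← norm_pow, h, norm_neg, norm_one]
    exact (pow_eq_one_iff_of_nonneg (norm_nonneg q) (by norm_num)).1 h2
  have h1 := Pool.Agent.H83.TA.det_pascal (2 * n) w hw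
  have h2 := det_pascal_q n q hq
  rw [h1, h2]
  change ‖(-w ^ 2) ^ (2 * n) * AA (2 * n)‖ / ‖q ^ n * BB n ^ 2‖ = rR n
  rw [AA_ofReal, BB_ofReal, norm_mul, norm_pow, norm_neg, norm_pow, hwn, norm_mul, norm_pow, hqn,
    norm_pow, one_pow, one_pow, one_pow, one_mul, one_mul, Complex.norm_real, Complex.norm_real,
    Real.norm_of_nonneg (aR_pos _).le, Real.norm_of_nonneg (bR_pos _).le]
  rfl

end Pool.Agent.H98.Izer
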