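import Pool.Agent.H98.Izer.Sch

/-!
# Two families of alternants and their recursions
-/

namespace Pool.Agent.H98.Izer

open Finset Matrix

/-- the exponents: `0, e, 3, 3 + e, 6, ...` -/
def ex (e k : ℕ) : ℕ := 3 * (k / 2) + e * (k % 2)

/-- the total degree -/
def tot (e n : ℕ) : ℕ := 3 * n + e - 3

lemma ex_le (e : ℕ) {n k : ℕ} (hk : k < 2 * n) : ex e k + 3 ≤ 3 * n + e := by
  unfold ex
  rcases Nat.mod_two_eq_zero_or_one k with h | h
  · rw [h, mul_zero]; omega
  · rw [h, mul_one]; omega

lemma ex_add_two (e k : ℕ) : ex e (k + 2) = ex e k + 3 := by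
  unfold ex
  rw [Nat.add_mod_right, Nat.add_div_right k (by norm_num : 0 < 2)]
  ring

lemma ex_zero (e : ℕ) : ex e 0 = 0 := by simp [ex]

lemma ex_one (e : ℕ) : ex e 1 = e := by simp [ex]

variable {R : Type*} [CommRing R]

/-- the functions -/
def va (e n k : ℕ) (p m : R) : R := p ^ ex e k * m ^ (tot e n - ex e k)

lemma va_add_two (e n k : ℕ) (hk : k < 2 * n) (p m : R) :
    va e (n + 1) (k + 2) p m = p ^ 3 * va e n k p m := by
  unfold va
  rw [ex_add_two, pow_add]
  have h := ex_le e hk
  have : tot e (n + 1) - (ex e k + 3) = tot e n - ex e k := by unfold tot; omega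
  rw [this]
  ring

lemma va_succ (e n k : ℕ) (hk : k < 2 * n) (p m : R) :
    va e (n + 1) k p m = m ^ 3 * va e n k p m := by
  unfold va
  have h := ex_le e hk
  have : tot e (n + 1) - ex e k = (tot e n - ex e k) + 3 := by unfold tot; omega
  rw [this, pow_add]
  ring

lemma va_zero (e n : ℕ) (p m : R) : va e (n + 1) 0 p m = (m ^ 3) ^ n * m ^ e := by
  unfold va
  rw [ex_zero, pow_zero, one_mul, ← pow_mul, ← pow_add]
  congr 1
  unfold tot
  omega

lemma va_one (e n : ℕ) (p m : R) : va e (n + 1) 1 p m = p ^ e * (m ^ 3) ^ n := by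
  unfold va
  rw [ex_one, ← pow_mul]
  congr 2
  unfold tot
  omega

/-- the alternant -/
def alt (e n : ℕ) (p m : Fin (2 * n) → R) : R :=
  det (of fun i k : Fin (2 * n) => va e n k (p i) (m i))

lemma det_two {L : ℕ} (B : Matrix (Fin (L + 2)) (Fin (L + 2)) R)
    (h0 : ∀ k : Fin L, B 0 k.succ.succ = 0) (h1 : ∀ k : Fin L, B 1 k.succ.succ = 0) :
    B.det = (B 0 0 * B 1 1 - B 0 1 * B 1 0) *
      (B.submatrix (fun i : Fin L => i.succ.succ) (fun k : Fin L => k.succ.succ)).det := by
  have s1 : (Fin.succ (0 : Fin (L + 1))) = 1 := rfl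
  rw [det_succ_row_zero, Fin.sum_univ_succ, Fin.sum_univ_succ]
  have e0 : ∀ k : Fin L, (-1 : R) ^ ((k.succ.succ : Fin (L + 2)) : ℕ) * B 0 k.succ.succ *
      (B.submatrix Fin.succ k.succ.succ.succAbove).det = 0 := by
    intro k; rw [h0]; ring
  rw [Finset.sum_eq_zero (fun k _ => e0 k), add_zero]
  have m0 : (B.submatrix Fin.succ (Fin.succAbove 0)).det = B 1 1 *
      (B.submatrix (fun i : Fin L => i.succ.succ) (fun k : Fin L => k.succ.succ)).det := by
    rw [det_succ_row_zero, Fin.sum_univ_succ]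
    rw [Finset.sum_eq_zero, add_zero]
    · simp only [Fin.val_zero, pow_zero, one_mul, submatrix_apply, Fin.succAbove_zero, s1,
        submatrix_submatrix]
      rfl
    · intro k _
      simp only [submatrix_apply, Fin.succAbove_zero, s1, h1]
      ring
  have m1 : (B.submatrix Fin.succ (Fin.succAbove (Fin.succ 0))).det = B 1 0 *
      (B.submatrix (fun i : Fin L => i.succ.succ) (fun k : Fin L => k.succ.succ)).det := by
    rw [det_succ_row_zero, Fin.sum_univ_succ]
    rw [Finset.sum_eq_zero, add_zero]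
    · have t1 : ((Fin.succ 0 : Fin (L + 2)).succAbove (0 : Fin (L + 1))) = 0 :=
        Fin.succ_succAbove_zero 0
      have t2 : ∀ k : Fin L, ((Fin.succ 0 : Fin (L + 2)).succAbove k.succ) = k.succ.succ := by
        intro k
        rw [Fin.succ_succAbove_succ, Fin.succAbove_zero]
      simp only [Fin.val_zero, pow_zero, one_mul, submatrix_apply, t1, submatrix_submatrix]
      have t3 : (Fin.succ 0 : Fin (L + 2)) = 1 := rfl
      rw [t3]
      congr 2
    · intro k _
      have t2 : ((Fin.succ 0 : Fin (L + 2)).succAbove k.succ) = k.succ.succ := by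
        rw [Fin.succ_succAbove_succ, Fin.succAbove_zero]
      simp only [submatrix_apply, t2]
      have t3 : (Fin.succ 0 : Fin (L + 2)) = 1 := rfl
      rw [t3, h1]
      ring
  rw [m0, m1]
  simp only [s1, Fin.val_zero, pow_zero, Fin.val_one, pow_one]
  ring

/-- the change of basis -/
def TT (L : ℕ) (u v : R) : Matrix (Fin (L + 2)) (Fin (L + 2)) R :=
  of fun j k => if j = k then (if (k : ℕ) < 2 then 1 else v) else
    if (j : ℕ) + 2 = k then -u else 0

lemma det_TT (L : ℕ) (u v : R) : (TT L u v).det = v ^ L := by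
  rw [det_of_isUpperTriangular]
  · rw [Fin.prod_univ_succ, Fin.prod_univ_succ]
    simp [TT]
  · intro i j hij
    have h : (j : ℕ) < i := hij
    simp only [TT, of_apply]
    rw [if_neg (by intro h2; rw [h2] at h; omega), if_neg (by omega)]

/-- recursion for the alternants -/
theorem alt_rec (e n : ℕ) (pa pb ma mb : R) (h : pa ^ 3 * mb ^ 3 = ma ^ 3 * pb ^ 3)
    (p m : Fin (2 * n) → R) :
    alt e (n + 1) (Fin.cons pa (Fin.cons pb p : Fin (2 * n + 1) → R) : Fin (2 * n + 2) → R)
      (Fin.cons ma (Fin.cons mb m : Fin (2 * n + 1) → R) : Fin (2 * n + 2) → R) *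
        (mb ^ 3) ^ (2 * n) =
      (ma ^ 3 * mb ^ 3) ^ n * (ma ^ e * pb ^ e - pa ^ e * mb ^ e) *
        (∏ i, (p i ^ 3 * mb ^ 3 - m i ^ 3 * pb ^ 3)) * alt e n p m := by
  set P : Fin (2 * n + 2) → R := Fin.cons pa (Fin.cons pb p : Fin (2 * n + 1) → R) with hP
  set M : Fin (2 * n + 2) → R := Fin.cons ma (Fin.cons mb m : Fin (2 * n + 1) → R) with hM
  set A : Matrix (Fin (2 * n + 2)) (Fin (2 * n + 2)) R :=
    of fun i k : Fin (2 * n + 2) => va e (n + 1) k (P i) (M i) with hA
  have hdet : alt e (n + 1) P M = A.det := rfl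
  have hprod2 : ∀ i (k : Fin (2 * n)), (A * TT (2 * n) (pb ^ 3) (mb ^ 3)) i k.succ.succ =
      (P i ^ 3 * mb ^ 3 - M i ^ 3 * pb ^ 3) * va e n k (P i) (M i) := by
    intro i k
    rw [Matrix.mul_apply]
    have h1 : ∀ j : Fin (2 * n + 2), A i j * TT (2 * n) (pb ^ 3) (mb ^ 3) j k.succ.succ =
        (if j = k.succ.succ then A i j * mb ^ 3 else 0) +
          (if j = k.castSucc.castSucc then A i j * (-pb ^ 3) else 0) := by
      intro j
      simp only [TT, of_apply]
      by_cases h1 : j = k.succ.succ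
      · rw [if_pos h1, if_pos h1, if_neg (show ¬ ((k.succ.succ : Fin (2 * n + 2)) : ℕ) < 2 by
          simp), if_neg (by
          rw [h1]; intro h2
          have := congrArg Fin.val h2
          simp at this
          omega), add_zero]
      · rw [if_neg h1, if_neg h1, zero_add]
        by_cases h2 : j = k.castSucc.castSucc
        · rw [if_pos h2, if_pos (by rw [h2]; simp)]
        · rw [if_neg h2, if_neg, mul_zero]
          intro h3
          apply h2
          apply Fin.ext
          simp at h3 ⊢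
          exact h3
    simp only [h1, Finset.sum_add_distrib, Finset.sum_ite_eq', mem_univ, if_true]
    have e1 : A i k.succ.succ = P i ^ 3 * va e n k (P i) (M i) := by
      have : ((k.succ.succ : Fin (2 * n + 2)) : ℕ) = (k : ℕ) + 2 := by simp
      simp only [hA, of_apply]
      rw [this, va_add_two e n k k.2]
    have e2 : A i k.castSucc.castSucc = M i ^ 3 * va e n k (P i) (M i) := by
      have : ((k.castSucc.castSucc : Fin (2 * n + 2)) : ℕ) = (k : ℕ) := by simp
      simp only [hA, of_apply]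
      rw [this, va_succ e n k k.2]
    rw [e1, e2]
    ring
  have hprod01 : ∀ i (k : Fin (2 * n + 2)), (k : ℕ) < 2 →
      (A * TT (2 * n) (pb ^ 3) (mb ^ 3)) i k = A i k := by
    intro i k hk
    rw [Matrix.mul_apply, Finset.sum_eq_single k]
    · simp only [TT, of_apply, if_true, if_pos hk, mul_one]
    · intro j _ hj
      simp only [TT, of_apply]
      rw [if_neg hj, if_neg (by omega), mul_zero]
    · intro h; exact absurd (mem_univ _) h
  rw [hdet, ← det_TT (2 * n) (pb ^ 3) (mb ^ 3), ← det_mul, det_two]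
  · rw [hprod01 0 0 (by simp), hprod01 1 1 (by simp), hprod01 0 1 (by simp),
      hprod01 1 0 (by simp)]
    have c0 : ∀ i, A i 0 = (M i ^ 3) ^ n * M i ^ e := fun i => va_zero e n _ _
    have c1 : ∀ i, A i 1 = P i ^ e * (M i ^ 3) ^ n := fun i => va_one e n _ _
    have P0 : P 0 = pa := rfl
    have P1 : P 1 = pb := rfl
    have M0 : M 0 = ma := rfl
    have M1 : M 1 = mb := rfl
    rw [c0, c0, c1, c1, P0, P1, M0, M1]
    have hsub : ((A * TT (2 * n) (pb ^ 3) (mb ^ 3)).submatrix
        (fun i : Fin (2 * n) => i.succ.succ) (fun k : Fin (2 * n) => k.succ.succ)) =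
        of fun i k : Fin (2 * n) => (p i ^ 3 * mb ^ 3 - m i ^ 3 * pb ^ 3) *
          (of fun i k : Fin (2 * n) => va e n k (p i) (m i)) i k := by
      ext i k
      simp only [submatrix_apply, of_apply, hprod2]
      rfl
    rw [hsub, det_mul_column]
    unfold alt
    rw [mul_pow]
    ring
  · intro k
    rw [hprod2]
    have P0 : P 0 = pa := rfl
    have M0 : M 0 = ma := rfl
    rw [P0, M0, h]
    ring
  · intro k
    rw [hprod2]
    have P1 : P 1 = pb := rfl
    have M1 : M 1 = mb := rfl
    rw [P1, M1]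
    ring

end Pool.Agent.H98.Izer
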