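import Mathlib

/-!
# The asymptotics of `A(2 n) / A_HT(2 n)^2`
-/

namespace Pool.Agent.H98.Izer

open Finset Filter Topology
open scoped Nat

/-- ASM numbers (real) -/
noncomputable def aR (N : ℕ) : ℝ := ∏ j ∈ range N, (((3 * j + 1)! : ℕ) : ℝ) / (((N + j)! : ℕ) : ℝ)

/-- half-turn symmetric ASM numbers (real) -/
noncomputable def bR (n : ℕ) : ℝ := aR n ^ 2 * ∏ k ∈ range n, ((3 * (k : ℝ) + 2) / (3 * k + 1))

/-- the ratio -/
noncomputable def rR (n : ℕ) : ℝ := aR (2 * n) / bR n ^ 2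

lemma hf (n : ℕ) : (n ! : ℝ) ≠ 0 := by exact_mod_cast Nat.factorial_ne_zero n

lemma hfp (n : ℕ) : 0 < (n ! : ℝ) := by exact_mod_cast Nat.factorial_pos n

lemma aR_pos (N : ℕ) : 0 < aR N := by
  unfold aR
  exact prod_pos fun j _ => div_pos (hfp _) (hfp _)

lemma bR_pos (n : ℕ) : 0 < bR n := by
  unfold bR
  refine mul_pos (pow_pos (aR_pos n) 2) (prod_pos fun k _ => ?_)
  positivity

lemma rR_pos (n : ℕ) : 0 < rR n := div_pos (aR_pos _) (pow_pos (bR_pos n) 2)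

lemma aR_succ (N : ℕ) : aR (N + 1) = aR N * ((N ! : ℝ) * ((3 * N + 1)! : ℝ) /
    (((2 * N)! : ℝ) * ((2 * N + 1)! : ℝ))) := by
  unfold aR
  rw [prod_div_distrib, prod_div_distrib, prod_range_succ]
  have h1 : (N ! : ℝ) * ∏ j ∈ range (N + 1), (((N + 1 + j)! : ℕ) : ℝ) =
      (∏ j ∈ range N, (((N + j)! : ℕ) : ℝ)) * ((2 * N)! : ℝ) * ((2 * N + 1)! : ℝ) := by
    have h2 : ∏ j ∈ range (N + 1 + 1), (((N + j)! : ℕ) : ℝ) =
        (N ! : ℝ) * ∏ j ∈ range (N + 1), (((N + 1 + j)! : ℕ) : ℝ) := by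
      rw [prod_range_succ', mul_comm, add_zero]
      congr 1
      refine prod_congr rfl fun j _ => ?_
      rw [show N + (j + 1) = N + 1 + j by ring]
    rw [← h2, prod_range_succ, prod_range_succ, show N + N = 2 * N by ring,
      show N + (N + 1) = 2 * N + 1 by ring]
  have h3 : (∏ j ∈ range (N + 1), (((N + 1 + j)! : ℕ) : ℝ)) ≠ 0 :=
    prod_ne_zero_iff.2 fun j _ => hf _
  have h4 : (∏ j ∈ range N, (((N + j)! : ℕ) : ℝ)) ≠ 0 :=
    prod_ne_zero_iff.2 fun j _ => hf _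
  have h5 := hf N
  have h6 := hf (2 * N)
  have h7 := hf (2 * N + 1)
  have h8 := hf (3 * N + 1)
  field_simp
  linear_combination -h1

lemma bR_succ (n : ℕ) : bR (n + 1) = bR n * ((n ! : ℝ) ^ 2 * ((3 * n)! : ℝ) *
    ((3 * n + 2)! : ℝ) / (((2 * n)! : ℝ) ^ 2 * ((2 * n + 1)! : ℝ) ^ 2)) := by
  unfold bR
  rw [aR_succ, prod_range_succ]
  have h6 := hf (2 * n)
  have h7 := hf (2 * n + 1)
  have h8 : ((3 * n + 1)! : ℝ) = (3 * n + 1) * ((3 * n)! : ℝ) := by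
    rw [Nat.factorial_succ]; push_cast; ring
  have h9 : ((3 * n + 2)! : ℝ) = (3 * n + 2) * (3 * n + 1) * ((3 * n)! : ℝ) := by
    rw [Nat.factorial_succ, Nat.factorial_succ]; push_cast; ring
  have h10 : (3 * (n : ℝ) + 1) ≠ 0 := by positivity
  rw [h8, h9]
  field_simp

/-- main factor of the ratio -/
noncomputable def bb (n : ℕ) : ℝ := (((2 * n)! : ℝ) ^ 2) ^ 5 * ((6 * n)! : ℝ) ^ 2 /
  ((((4 * n)! : ℝ) ^ 2) ^ 2 * ((n ! : ℝ) ^ 2) ^ 2 * (((3 * n)! : ℝ) ^ 2) ^ 2)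

/-- rational factor of the ratio -/
noncomputable def rat (x : ℝ) : ℝ :=
  (2 * x + 1) ^ 5 * (6 * x + 1) ^ 2 * (6 * x + 2) * (6 * x + 3) * (6 * x + 4) /
    ((4 * x + 1) ^ 3 * (4 * x + 2) ^ 2 * (4 * x + 3) * ((3 * x + 1) * (3 * x + 2)) ^ 2)

/-- the ratio of consecutive terms -/
noncomputable def rho (n : ℕ) : ℝ := bb n * rat n

lemma f1 (n : ℕ) : ((n + 1)! : ℝ) = (n + 1) * (n ! : ℝ) := by
  rw [Nat.factorial_succ]; push_cast; ring

lemma f2 (n : ℕ) : ((n + 2)! : ℝ) = (n + 2) * (n + 1) * (n ! : ℝ) := by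
  rw [Nat.factorial_succ, Nat.factorial_succ]; push_cast; ring

lemma f3 (n : ℕ) : ((n + 3)! : ℝ) = (n + 3) * (n + 2) * (n + 1) * (n ! : ℝ) := by
  rw [Nat.factorial_succ, Nat.factorial_succ, Nat.factorial_succ]; push_cast; ring

lemma f4 (n : ℕ) : ((n + 4)! : ℝ) = (n + 4) * (n + 3) * (n + 2) * (n + 1) * (n ! : ℝ) := by
  rw [Nat.factorial_succ, Nat.factorial_succ, Nat.factorial_succ, Nat.factorial_succ]
  push_cast; ring

lemma f6 (n : ℕ) : ((n + 6)! : ℝ) = (n + 6) * (n + 5) * (n + 4) * (n + 3) * (n + 2) *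
    (n + 1) * (n ! : ℝ) := by
  rw [Nat.factorial_succ, Nat.factorial_succ, Nat.factorial_succ, Nat.factorial_succ,
    Nat.factorial_succ, Nat.factorial_succ]
  push_cast; ring

lemma rR_succ (n : ℕ) : rR (n + 1) = rR n * rho n := by
  have h1 : aR (2 * (n + 1)) = aR (2 * n) * (((2 * n)! : ℝ) * ((6 * n + 1)! : ℝ) /
      (((4 * n)! : ℝ) * ((4 * n + 1)! : ℝ))) * (((2 * n + 1)! : ℝ) * ((6 * n + 4)! : ℝ) /
      (((4 * n + 2)! : ℝ) * ((4 * n + 3)! : ℝ))) := by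
    rw [show 2 * (n + 1) = 2 * n + 1 + 1 by ring, aR_succ, aR_succ,
      show 3 * (2 * n) + 1 = 6 * n + 1 by ring, show 2 * (2 * n) = 4 * n by ring,
      show 3 * (2 * n + 1) + 1 = 6 * n + 4 by ring, show 2 * (2 * n + 1) = 4 * n + 2 by ring]
  unfold rR
  rw [h1, bR_succ]
  unfold rho bb rat
  rw [f1 (2 * n), f1 (6 * n), f1 (4 * n), f2 (4 * n), f3 (4 * n), f4 (6 * n), f2 (3 * n)]
  have g1 := hf n
  have g2 := hf (2 * n)
  have g3 := hf (3 * n)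
  have g4 := hf (4 * n)
  have g6 := hf (6 * n)
  have g7 := (bR_pos n).ne'
  push_cast
  have k1 : (2 * (n : ℝ) + 1) ≠ 0 := by positivity
  have k2 : (3 * (n : ℝ) + 1) ≠ 0 := by positivity
  have k3 : (3 * (n : ℝ) + 2) ≠ 0 := by positivity
  have k4 : (4 * (n : ℝ) + 1) ≠ 0 := by positivity
  have k5 : (4 * (n : ℝ) + 2) ≠ 0 := by positivity
  have k6 : (4 * (n : ℝ) + 3) ≠ 0 := by positivity
  have k7 : (6 * (n : ℝ) + 1) ≠ 0 := by positivity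
  have k8 : (6 * (n : ℝ) + 2) ≠ 0 := by positivity
  have k9 : (6 * (n : ℝ) + 3) ≠ 0 := by positivity
  have k10 : (6 * (n : ℝ) + 4) ≠ 0 := by positivity
  generalize (2 * (n : ℝ) + 1) = z1 at *
  generalize (3 * (n : ℝ) + 1) = z2 at *
  generalize (3 * (n : ℝ) + 2) = z3 at *
  generalize (4 * (n : ℝ) + 1) = z4 at *
  generalize (4 * (n : ℝ) + 2) = z5 at *
  generalize (4 * (n : ℝ) + 3) = z6 at *
  generalize (6 * (n : ℝ) + 1) = z7 at *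
  generalize (6 * (n : ℝ) + 2) = z8 at *
  generalize (6 * (n : ℝ) + 3) = z9 at *
  generalize (6 * (n : ℝ) + 4) = z10 at *
  field_simp

/-- the second ratio, as a function of `x = 1 / (n+1)^2` -/
noncomputable def kap (x : ℝ) : ℝ := 16 * ((4 - x) ^ 4 * (36 - x) ^ 2) /
  ((16 - 9 * x) * (16 - x) ^ 3 * (9 - 4 * x) * (9 - x))

lemma kap_eq (m : ℝ) (hm : 1 ≤ m) : kap (1 / m ^ 2) =
    16 * ((2 * m - 1) * (2 * m + 1)) ^ 4 * ((6 * m - 1) * (6 * m + 1)) ^ 2 /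
      (((4 * m - 3) * (4 * m + 3)) * ((4 * m - 1) * (4 * m + 1)) ^ 3 *
        ((3 * m - 2) * (3 * m + 2)) * ((3 * m - 1) * (3 * m + 1))) := by
  have hm0 : m ≠ 0 := by positivity
  have e1 : 4 - 1 / m ^ 2 = ((2 * m - 1) * (2 * m + 1)) / m ^ 2 := by
    field_simp; ring
  have e2 : 36 - 1 / m ^ 2 = ((6 * m - 1) * (6 * m + 1)) / m ^ 2 := by
    field_simp; ring
  have e3 : 16 - 9 * (1 / m ^ 2) = ((4 * m - 3) * (4 * m + 3)) / m ^ 2 := by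
    field_simp; ring
  have e4 : 16 - 1 / m ^ 2 = ((4 * m - 1) * (4 * m + 1)) / m ^ 2 := by
    field_simp; ring
  have e5 : 9 - 4 * (1 / m ^ 2) = ((3 * m - 2) * (3 * m + 2)) / m ^ 2 := by
    field_simp; ring
  have e6 : 9 - 1 / m ^ 2 = ((3 * m - 1) * (3 * m + 1)) / m ^ 2 := by
    field_simp; ring
  have k1 : (4 * m - 3) * (4 * m + 3) ≠ 0 := by
    have : 0 < (4 * m - 3) * (4 * m + 3) := mul_pos (by linarith) (by linarith)
    exact this.ne'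
  have k2 : (4 * m - 1) * (4 * m + 1) ≠ 0 := by
    have : 0 < (4 * m - 1) * (4 * m + 1) := mul_pos (by linarith) (by linarith)
    exact this.ne'
  have k3 : (3 * m - 2) * (3 * m + 2) ≠ 0 := by
    have : 0 < (3 * m - 2) * (3 * m + 2) := mul_pos (by linarith) (by linarith)
    exact this.ne'
  have k4 : (3 * m - 1) * (3 * m + 1) ≠ 0 := by
    have : 0 < (3 * m - 1) * (3 * m + 1) := mul_pos (by linarith) (by linarith)
    exact this.ne'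
  unfold kap
  rw [e1, e2, e3, e4, e5, e6]
  generalize (4 * m - 3) * (4 * m + 3) = z1 at *
  generalize (4 * m - 1) * (4 * m + 1) = z2 at *
  generalize (3 * m - 2) * (3 * m + 2) = z3 at *
  generalize (3 * m - 1) * (3 * m + 1) = z4 at *
  generalize (2 * m - 1) * (2 * m + 1) = z5 at *
  generalize (6 * m - 1) * (6 * m + 1) = z6 at *
  field_simp

lemma rho_succ (n : ℕ) : rho (n + 1) = rho n * kap (1 / ((n : ℝ) + 1) ^ 2) := by
  rw [kap_eq ((n : ℝ) + 1) (by linarith [Nat.cast_nonneg (α := ℝ) n])]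
  unfold rho bb rat
  rw [show 2 * (n + 1) = 2 * n + 2 by ring, show 6 * (n + 1) = 6 * n + 6 by ring,
    show 4 * (n + 1) = 4 * n + 4 by ring, show 3 * (n + 1) = 3 * n + 3 by ring,
    f2 (2 * n), f6 (6 * n), f4 (4 * n), f3 (3 * n), f1 n]
  push_cast
  have g1 := hf n
  have g2 := hf (2 * n)
  have g3 := hf (3 * n)
  have g4 := hf (4 * n)
  have g6 := hf (6 * n)
  have hn : (0 : ℝ) ≤ n := Nat.cast_nonneg n
  -- linear forms
  have a1 : (2 * (n : ℝ) + 2) = 2 * ((n : ℝ) + 1) := by ring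
  have a2 : (6 * (n : ℝ) + 6) = 6 * ((n : ℝ) + 1) := by ring
  have a3 : (4 * (n : ℝ) + 4) = 4 * ((n : ℝ) + 1) := by ring
  have a4 : (3 * (n : ℝ) + 3) = 3 * ((n : ℝ) + 1) := by ring
  have a5 : (4 * (n : ℝ) + 2) = 2 * (2 * (n : ℝ) + 1) := by ring
  have a6 : (6 * (n : ℝ) + 3) = 3 * (2 * (n : ℝ) + 1) := by ring
  have a7 : (6 * (n : ℝ) + 2) = 2 * (3 * (n : ℝ) + 1) := by ring
  have a8 : (6 * (n : ℝ) + 4) = 2 * (3 * (n : ℝ) + 2) := by ring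
  have b1 : 2 * ((n : ℝ) + 1) + 1 = 2 * (n : ℝ) + 3 := by ring
  have b2 : 6 * ((n : ℝ) + 1) + 1 = 6 * (n : ℝ) + 7 := by ring
  have b3 : 6 * ((n : ℝ) + 1) + 2 = 2 * (3 * (n : ℝ) + 4) := by ring
  have b4 : 6 * ((n : ℝ) + 1) + 3 = 3 * (2 * (n : ℝ) + 3) := by ring
  have b5 : 6 * ((n : ℝ) + 1) + 4 = 2 * (3 * (n : ℝ) + 5) := by ring
  have b6 : 4 * ((n : ℝ) + 1) + 1 = 4 * (n : ℝ) + 5 := by ring
  have b7 : 4 * ((n : ℝ) + 1) + 2 = 2 * (2 * (n : ℝ) + 3) := by ring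
  have b8 : 4 * ((n : ℝ) + 1) + 3 = 4 * (n : ℝ) + 7 := by ring
  have b9 : 3 * ((n : ℝ) + 1) + 1 = 3 * (n : ℝ) + 4 := by ring
  have b10 : 3 * ((n : ℝ) + 1) + 2 = 3 * (n : ℝ) + 5 := by ring
  have c1 : 2 * ((n : ℝ) + 1) - 1 = 2 * (n : ℝ) + 1 := by ring
  have c2 : 6 * ((n : ℝ) + 1) - 1 = 6 * (n : ℝ) + 5 := by ring
  have c3 : 4 * ((n : ℝ) + 1) - 3 = 4 * (n : ℝ) + 1 := by ring
  have c4 : 4 * ((n : ℝ) + 1) - 1 = 4 * (n : ℝ) + 3 := by ring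
  have c5 : 3 * ((n : ℝ) + 1) - 2 = 3 * (n : ℝ) + 1 := by ring
  have c6 : 3 * ((n : ℝ) + 1) - 1 = 3 * (n : ℝ) + 2 := by ring
  rw [b1, b2, b3, b4, b5, b6, b7, b8, b9, b10, c1, c2, c3, c4, c5, c6, a1, a2, a3, a4, a5, a6,
    a7, a8]
  have k0 : ((n : ℝ) + 1) ≠ 0 := by positivity
  have k1 : (2 * (n : ℝ) + 1) ≠ 0 := by positivity
  have k2 : (3 * (n : ℝ) + 1) ≠ 0 := by positivity
  have k3 : (3 * (n : ℝ) + 2) ≠ 0 := by positivity
  have k4 : (4 * (n : ℝ) + 1) ≠ 0 := by positivity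
  have k6 : (4 * (n : ℝ) + 3) ≠ 0 := by positivity
  have k7 : (6 * (n : ℝ) + 1) ≠ 0 := by positivity
  have k8 : (6 * (n : ℝ) + 5) ≠ 0 := by positivity
  have k9 : (6 * (n : ℝ) + 7) ≠ 0 := by positivity
  have l1 : (2 * (n : ℝ) + 3) ≠ 0 := by positivity
  have l2 : (3 * (n : ℝ) + 4) ≠ 0 := by positivity
  have l3 : (3 * (n : ℝ) + 5) ≠ 0 := by positivity
  have l4 : (4 * (n : ℝ) + 5) ≠ 0 := by positivity
  have l6 : (4 * (n : ℝ) + 7) ≠ 0 := by positivity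
  clear a1 a2 a3 a4 a5 a6 a7 a8 b1 b2 b3 b4 b5 b6 b7 b8 b9 b10 c1 c2 c3 c4 c5 c6
  generalize (2 * (n : ℝ) + 1) = z1 at *
  generalize (3 * (n : ℝ) + 1) = z2 at *
  generalize (3 * (n : ℝ) + 2) = z3 at *
  generalize (4 * (n : ℝ) + 1) = z4 at *
  generalize (4 * (n : ℝ) + 3) = z6 at *
  generalize (6 * (n : ℝ) + 1) = z7 at *
  generalize (6 * (n : ℝ) + 5) = z8 at *
  generalize (6 * (n : ℝ) + 7) = z9 at *
  generalize (2 * (n : ℝ) + 3) = y1 at *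
  generalize (3 * (n : ℝ) + 4) = y2 at *
  generalize (3 * (n : ℝ) + 5) = y3 at *
  generalize (4 * (n : ℝ) + 5) = y4 at *
  generalize (4 * (n : ℝ) + 7) = y6 at *
  generalize ((n : ℝ) + 1) = z0 at *
  field_simp
  try ring

end Pool.Agent.H98.Izer
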