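import Pool.Agent.H98.Izer.Asym

/-!
# The limit of the ratio
-/

namespace Pool.Agent.H98.Izer

open Finset Filter Topology
open scoped Nat

/-- square of a factorial by the Stirling sequence -/
lemma fact_sq (a n : ℕ) (ha : 0 < a) (hn : 0 < n) : ((a * n)! : ℝ) ^ 2 =
    Stirling.stirlingSeq (a * n) ^ 2 * (2 * (a * n)) * (((a : ℝ) ^ (2 * a)) ^ n *
      (((n : ℝ) / Real.exp 1) ^ n) ^ (2 * a)) := by
  have hn' : (0 : ℝ) < n := by exact_mod_cast hn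
  have ha' : (0 : ℝ) < a := by exact_mod_cast ha
  have he := Real.exp_pos 1
  have h1 : ((a * n)! : ℝ) = Stirling.stirlingSeq (a * n) * (√(2 * (a * n)) *
      ((a * n) / Real.exp 1) ^ (a * n)) := by
    unfold Stirling.stirlingSeq
    push_cast
    have h2 : √(2 * ((a : ℝ) * n)) ≠ 0 := (Real.sqrt_pos.2 (by positivity)).ne'
    have h3 : ((a : ℝ) * n / Real.exp 1) ^ (a * n) ≠ 0 := by positivity
    field_simp
  rw [h1, mul_pow, mul_pow, Real.sq_sqrt (by positivity)]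
  have h4 : (((a : ℝ) * n / Real.exp 1) ^ (a * n)) ^ 2 = ((a : ℝ) ^ (2 * a)) ^ n *
      (((n : ℝ) / Real.exp 1) ^ n) ^ (2 * a) := by
    rw [mul_div_assoc, mul_pow, mul_pow, ← pow_mul, ← pow_mul, ← pow_mul, ← pow_mul,
      show a * n * 2 = 2 * a * n by ring, show n * (2 * a) = 2 * a * n by ring]
  rw [h4]
  ring

lemma bb_eq (n : ℕ) (hn : 0 < n) : bb n = (4 / 3) *
    ((Stirling.stirlingSeq (2 * n) ^ 2) ^ 5 * Stirling.stirlingSeq (6 * n) ^ 2 /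
      ((Stirling.stirlingSeq (4 * n) ^ 2) ^ 2 * (Stirling.stirlingSeq (1 * n) ^ 2) ^ 2 *
        (Stirling.stirlingSeq (3 * n) ^ 2) ^ 2)) := by
  have e2 := fact_sq 2 n (by norm_num) hn
  have e6 := fact_sq 6 n (by norm_num) hn
  have e4 := fact_sq 4 n (by norm_num) hn
  have e3 := fact_sq 3 n (by norm_num) hn
  have e1 := fact_sq 1 n (by norm_num) hn
  have hn' : (0 : ℝ) < n := by exact_mod_cast hn
  have he := Real.exp_pos 1
  have hE : (((n : ℝ) / Real.exp 1) ^ n) ≠ 0 := by positivity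
  have hs : ∀ m : ℕ, 0 < m → Stirling.stirlingSeq m ≠ 0 := by
    intro m hm
    obtain ⟨k, rfl⟩ : ∃ k, m = k + 1 := ⟨m - 1, by omega⟩
    exact (Stirling.stirlingSeq'_pos k).ne'
  have s2 := hs (2 * n) (by omega)
  have s6 := hs (6 * n) (by omega)
  have s4 := hs (4 * n) (by omega)
  have s3 := hs (3 * n) (by omega)
  have s1 := hs (1 * n) (by omega)
  unfold bb
  have e1' : ((n)! : ℝ) ^ 2 = Stirling.stirlingSeq (1 * n) ^ 2 * (2 * ((1 : ℕ) * n)) *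
      ((((1 : ℕ) : ℝ) ^ (2 * 1)) ^ n * (((n : ℝ) / Real.exp 1) ^ n) ^ (2 * 1)) := by
    rw [← e1, one_mul]
  rw [e2, e6, e4, e3, e1']
  set E := (((n : ℝ) / Real.exp 1) ^ n) with hEd
  have hpow : ((((2 : ℕ) : ℝ) ^ (2 * 2)) ^ n) ^ 5 * (((6 : ℕ) : ℝ) ^ (2 * 6)) ^ n =
      ((((4 : ℕ) : ℝ) ^ (2 * 4)) ^ n) ^ 2 * ((((1 : ℕ) : ℝ) ^ (2 * 1)) ^ n) ^ 2 *
        ((((3 : ℕ) : ℝ) ^ (2 * 3)) ^ n) ^ 2 := by
    rw [← pow_mul, ← pow_mul _ n 2, ← pow_mul _ n 2, ← pow_mul _ n 2, mul_comm n 5, mul_comm n 2,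
      pow_mul _ 5 n, pow_mul _ 2 n, pow_mul _ 2 n, pow_mul _ 2 n, ← mul_pow, ← mul_pow, ← mul_pow]
    norm_num
  have p1 : ((((4 : ℕ) : ℝ) ^ (2 * 4)) ^ n) ≠ 0 := by positivity
  have p2 : ((((1 : ℕ) : ℝ) ^ (2 * 1)) ^ n) ≠ 0 := by positivity
  have p3 : ((((3 : ℕ) : ℝ) ^ (2 * 3)) ^ n) ≠ 0 := by positivity
  generalize ((((2 : ℕ) : ℝ) ^ (2 * 2)) ^ n) = u2 at *
  generalize ((((6 : ℕ) : ℝ) ^ (2 * 6)) ^ n) = u6 at *
  generalize ((((4 : ℕ) : ℝ) ^ (2 * 4)) ^ n) = u4 at *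
  generalize ((((1 : ℕ) : ℝ) ^ (2 * 1)) ^ n) = u1 at *
  generalize ((((3 : ℕ) : ℝ) ^ (2 * 3)) ^ n) = u3 at *
  generalize Stirling.stirlingSeq (2 * n) = t2 at *
  generalize Stirling.stirlingSeq (6 * n) = t6 at *
  generalize Stirling.stirlingSeq (4 * n) = t4 at *
  generalize Stirling.stirlingSeq (3 * n) = t3 at *
  generalize Stirling.stirlingSeq (1 * n) = t1 at *
  push_cast
  have hn0 : (n : ℝ) ≠ 0 := hn'.ne'
  rw [div_eq_iff (by positivity)]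
  field_simp
  linear_combination 192 * hpow

lemma bb_tendsto : Tendsto bb atTop (𝓝 (4 / 3)) := by
  have hpi : (√Real.pi) ≠ 0 := (Real.sqrt_pos.2 Real.pi_pos).ne'
  have hS : ∀ a : ℕ, 0 < a → Tendsto (fun n : ℕ => Stirling.stirlingSeq (a * n)) atTop
      (𝓝 (√Real.pi)) := by
    intro a ha
    refine Stirling.tendsto_stirlingSeq_sqrt_pi.comp ?_
    exact tendsto_id.const_mul_atTop' ha
  have h1 : Tendsto (fun n : ℕ => (4 / 3 : ℝ) *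
    ((Stirling.stirlingSeq (2 * n) ^ 2) ^ 5 * Stirling.stirlingSeq (6 * n) ^ 2 /
      ((Stirling.stirlingSeq (4 * n) ^ 2) ^ 2 * (Stirling.stirlingSeq (1 * n) ^ 2) ^ 2 *
        (Stirling.stirlingSeq (3 * n) ^ 2) ^ 2))) atTop (𝓝 ((4 / 3 : ℝ) *
    (((√Real.pi) ^ 2) ^ 5 * (√Real.pi) ^ 2 /
      (((√Real.pi) ^ 2) ^ 2 * ((√Real.pi) ^ 2) ^ 2 * ((√Real.pi) ^ 2) ^ 2)))) := by
    refine Tendsto.const_mul _ (Tendsto.div ?_ ?_ (by positivity))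
    · exact (((hS 2 (by norm_num)).pow 2).pow 5).mul ((hS 6 (by norm_num)).pow 2)
    · exact ((((hS 4 (by norm_num)).pow 2).pow 2).mul (((hS 1 (by norm_num)).pow 2).pow 2)).mul
        (((hS 3 (by norm_num)).pow 2).pow 2)
  have h2 : ((4 / 3 : ℝ) * (((√Real.pi) ^ 2) ^ 5 * (√Real.pi) ^ 2 /
      (((√Real.pi) ^ 2) ^ 2 * ((√Real.pi) ^ 2) ^ 2 * ((√Real.pi) ^ 2) ^ 2))) = 4 / 3 := by
    field_simp
  rw [h2] at h1
  refine h1.congr' ?_
  filter_upwards [eventually_gt_atTop 0] with n hn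
  exact (bb_eq n hn).symm

lemma rat_tendsto : Tendsto (fun n : ℕ => rat n) atTop (𝓝 (3 / 4)) := by
  have hinv : Tendsto (fun n : ℕ => (1 : ℝ) / n) atTop (𝓝 0) :=
    tendsto_one_div_atTop_nhds_zero_nat
  have hlin : ∀ a b : ℝ, Tendsto (fun n : ℕ => a + b * ((1 : ℝ) / n)) atTop (𝓝 a) := by
    intro a b
    have := (hinv.const_mul b).const_add a
    simpa using this
  have h1 : Tendsto (fun n : ℕ => (2 + 1 * ((1 : ℝ) / n)) ^ 5 * (6 + 1 * ((1 : ℝ) / n)) ^ 2 *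
      (6 + 2 * ((1 : ℝ) / n)) * (6 + 3 * ((1 : ℝ) / n)) * (6 + 4 * ((1 : ℝ) / n)) /
      ((4 + 1 * ((1 : ℝ) / n)) ^ 3 * (4 + 2 * ((1 : ℝ) / n)) ^ 2 * (4 + 3 * ((1 : ℝ) / n)) *
        ((3 + 1 * ((1 : ℝ) / n)) * (3 + 2 * ((1 : ℝ) / n))) ^ 2)) atTop
      (𝓝 ((2 ^ 5 * 6 ^ 2 * 6 * 6 * 6) / (4 ^ 3 * 4 ^ 2 * 4 * (3 * 3) ^ 2))) := by
    refine Tendsto.div ?_ ?_ (by norm_num)
    · exact (((((hlin 2 1).pow 5).mul ((hlin 6 1).pow 2)).mul (hlin 6 2)).mul (hlin 6 3)).mul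
        (hlin 6 4)
    · exact ((((hlin 4 1).pow 3).mul ((hlin 4 2).pow 2)).mul (hlin 4 3)).mul
        (((hlin 3 1).mul (hlin 3 2)).pow 2)
  have h2 : ((2 ^ 5 * 6 ^ 2 * 6 * 6 * 6) / (4 ^ 3 * 4 ^ 2 * 4 * (3 * 3) ^ 2) : ℝ) = 3 / 4 := by
    norm_num
  rw [h2] at h1
  refine h1.congr' ?_
  filter_upwards [eventually_gt_atTop 0] with n hn
  have hn' : (0 : ℝ) < n := by exact_mod_cast hn
  have e : ∀ a b : ℝ, a + b * ((1 : ℝ) / n) = (a * n + b) / n := by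
    intro a b
    field_simp
  simp only [e]
  unfold rat
  have k1 : (2 * (n : ℝ) + 1) ≠ 0 := by positivity
  have k2 : (3 * (n : ℝ) + 1) ≠ 0 := by positivity
  have k3 : (3 * (n : ℝ) + 2) ≠ 0 := by positivity
  have k4 : (4 * (n : ℝ) + 1) ≠ 0 := by positivity
  have k5 : (4 * (n : ℝ) + 2) ≠ 0 := by positivity
  have k6 : (4 * (n : ℝ) + 3) ≠ 0 := by positivity
  generalize (2 * (n : ℝ) + 1) = z1 at *
  generalize (3 * (n : ℝ) + 1) = z2 at *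
  generalize (3 * (n : ℝ) + 2) = z3 at *
  generalize (4 * (n : ℝ) + 1) = z4 at *
  generalize (4 * (n : ℝ) + 2) = z5 at *
  generalize (4 * (n : ℝ) + 3) = z6 at *
  generalize (6 * (n : ℝ) + 1) = z7 at *
  generalize (6 * (n : ℝ) + 2) = z8 at *
  generalize (6 * (n : ℝ) + 3) = z9 at *
  generalize (6 * (n : ℝ) + 4) = z10 at *
  field_simp

lemma rho_tendsto : Tendsto rho atTop (𝓝 1) := by
  have := bb_tendsto.mul rat_tendsto
  have e : (4 / 3 * (3 / 4) : ℝ) = 1 := by norm_num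
  rw [e] at this
  exact this

lemma rho_pos (n : ℕ) : 0 < rho n := by
  have h := rR_succ n
  have h1 := rR_pos n
  have h2 := rR_pos (n + 1)
  rw [h] at h2
  exact (mul_pos_iff_of_pos_left h1).1 h2

/-- bounds for the second ratio -/
lemma kap_bounds (x : ℝ) (h0 : 0 ≤ x) (h1 : x ≤ 1 / 4) :
    0 < kap x ∧ kap x ≤ 1 + x / 4 + x ^ 2 ∧ 1 / kap x ≤ 1 - x / 4 := by
  have d1 : 0 < 16 - 9 * x := by linarith
  have d2 : 0 < 16 - x := by linarith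
  have d3 : 0 < 9 - 4 * x := by linarith
  have d4 : 0 < 9 - x := by linarith
  have d5 : 0 < 4 - x := by linarith
  have d6 : 0 < 36 - x := by linarith
  have hD : 0 < (16 - 9 * x) * (16 - x) ^ 3 * (9 - 4 * x) * (9 - x) := by positivity
  have hN : 0 < 16 * ((4 - x) ^ 4 * (36 - x) ^ 2) := by positivity
  have p : ∀ k : ℕ, 0 ≤ x ^ k := fun k => pow_nonneg h0 k
  have s : ∀ k : ℕ, x ^ (k + 1) ≤ x ^ k / 4 := by
    intro k
    rw [pow_succ]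
    have := p k
    nlinarith
  have p2 := p 2
  have p3 := p 3
  have p4 := p 4
  have p5 := p 5
  have p6 := p 6
  have p7 := p 7
  have p8 := p 8
  have s1 := s 1
  have s2 := s 2
  have s3 := s 3
  have s4 := s 4
  have s5 := s 5
  have s6 := s 6
  have s7 := s 7
  norm_num at s1 s2 s3 s4 s5 s6 s7
  refine ⟨div_pos hN hD, ?_, ?_⟩
  · unfold kap
    rw [div_le_iff₀ hD]
    nlinarith
  · unfold kap
    rw [one_div_div, div_le_iff₀ hN]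
    nlinarith

end Pool.Agent.H98.Izer
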