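import Pool.Agent.H98.Izer.Asym3
import Pool.Agent.H13.Pascal.Bridge

/-!
# The one arm determinants: unconditional two-sided bounds with exponent 5/48
-/

namespace Pool.Agent.H98.Izer

open Pool.Agent.H23.BO (pascal)

/-- the lower bound needed for the sum rule -/
theorem ratio_lower : ∃ c : ℝ, 0 < c ∧ ∀ n : ℕ, 1 ≤ n → ∀ w q : ℂ, w ^ 2 + w + 1 = 0 →
      q ^ 2 - q + 1 = 0 → c * (n : ℝ) ^ (-(1 / 4) : ℝ) ≤
      ‖((w • 1 + pascal (2 * n)).det)‖ / ‖((q • 1 + pascal (2 * n)).det)‖ := by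
  obtain ⟨c, C, hc, -, h⟩ := rR_bounds
  refine ⟨c, hc, fun n hn w q hw hq => ?_⟩
  have h1 := det_ratio n w q hw hq
  exact (h n hn).1.trans h1.symm.le

/-- **Two-sided bounds with exponent 5/48**, unconditional. -/
theorem one_arm_dets :
    ∃ c C : ℝ, 0 < c ∧ 0 < C ∧ ∀ n : ℕ, 1 ≤ n → ∀ w q : ℂ, w ^ 2 + 1 = 0 → q ^ 2 - q + 1 = 0 →
      c * (n : ℝ) ^ (-(5 / 48) : ℝ) ≤
        ‖(w ^ n)⁻¹ * (w • 1 + pascal (2 * n)).det‖ /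
          ‖(q ^ n)⁻¹ * (q • 1 + pascal (2 * n)).det‖ ∧
        ‖(w ^ n)⁻¹ * (w • 1 + pascal (2 * n)).det‖ /
          ‖(q ^ n)⁻¹ * (q • 1 + pascal (2 * n)).det‖
        ≤ C * (n : ℝ) ^ (-(5 / 48) : ℝ) :=
  Pool.Agent.H13.Pascal.one_arm_of ratio_lower

end Pool.Agent.H98.Izer
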