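import Pool.Agent.H68.Izer.Main

/-!
# Uniqueness from recursion and calibration at injective points
-/

namespace Pool.Agent.H98.Izer

open Finset Polynomial
open Pool.Agent.H68.Izer

variable {K : Type*} [Field K] [CharZero K]

omit [CharZero K] in
/-- vanishing at all pairs -/
lemma zero_of_pair' {m : ℕ} {H : (Fin (m + 2) → K) → K}
    (hs : ∀ (σ : Equiv.Perm (Fin (m + 2))) x, H (x ∘ σ) = H x)
    (hr : ∀ (a b : K) (y : Fin m → K), 1 - a + a * b = 0 →
      Function.Injective (Fin.cons a (Fin.cons b y : Fin (m + 1) → K) : Fin (m + 2) → K) →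
      H (Fin.cons a (Fin.cons b y : Fin (m + 1) → K) : Fin (m + 2) → K) = 0)
    {x : Fin (m + 2) → K} (hx : Function.Injective x) {i j : Fin (m + 2)} (hij : i ≠ j)
    (h : 1 - x i + x i * x j = 0) :
    H x = 0 := by
  obtain ⟨σ, h0, h1⟩ := exists_perm hij
  have e := eq_cons_cons (x ∘ σ)
  rw [← hs σ x, e]
  apply hr
  · simp only [Function.comp_apply, h0, h1]
    exact h
  · rw [← e]
    exact hx.comp σ.injective

omit [CharZero K] in
/-- the zeros are different from the given points -/
lemma zeros_ne_y {M : ℕ} {y : Fin M → K} (hy : Gen y) (a : Fin M ⊕ Fin M) (k : Fin M) :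
    (Sum.elim (fun j => 1 / (1 - y j)) (fun j => (y j - 1) / y j) : Fin M ⊕ Fin M → K) a ≠
      y k := by
  have h1 : ∀ j, (1 - y j) ≠ 0 := fun j => sub_ne_zero.mpr (hy.h1 j).symm
  have h0 := hy.h0
  rcases a with j | j
  · simp only [Sum.elim_inl]
    intro h
    rw [div_eq_iff (h1 j)] at h
    apply hy.hD j k
    unfold D
    linear_combination h
  · simp only [Sum.elim_inr]
    intro h
    rw [div_eq_iff (h0 j)] at h
    apply hy.hD k j
    unfold D
    linear_combination -h

/-- **Uniqueness.** -/
theorem uniq' {n : ℕ} {q : K} (hq : q ^ 2 - q + 1 = 0) {H : (Fin (2 * n + 2) → K) → K}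
    (hs : ∀ (σ : Equiv.Perm (Fin (2 * n + 2))) x, H (x ∘ σ) = H x)
    (hp : ∀ y : Fin (2 * n + 1) → K, ∃ p : K[X], (Function.Injective y → p.natDegree ≤ 4 * n + 2) ∧
      ∀ t, H (Fin.cons t y : Fin (2 * n + 2) → K) = p.eval t)
    (hr : ∀ (a b : K) (y : Fin (2 * n) → K), 1 - a + a * b = 0 →
      Function.Injective (Fin.cons a (Fin.cons b y : Fin (2 * n + 1) → K) :
        Fin (2 * n + 2) → K) →
      H (Fin.cons a (Fin.cons b y : Fin (2 * n + 1) → K) : Fin (2 * n + 2) → K) = 0)
    (hc : ∀ y : Fin (2 * n) → K, Function.Injective y → (∀ k, y k ≠ q) → ∃ g : K[X], ∀ s,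
      H (Fin.cons q (Fin.cons s y : Fin (2 * n + 1) → K) : Fin (2 * n + 2) → K) =
        (s - q) ^ 3 * g.eval s) :
    ∀ x, H x = 0 := by
  -- polynomial in any variable
  have hpi : ∀ (i : Fin (2 * n + 2)) (x : Fin (2 * n + 2) → K), ∃ p : K[X],
      ∀ t, H (Function.update x i t) = p.eval t := by
    intro i x
    obtain ⟨p, -, hp'⟩ := hp (fun k => x (Equiv.swap 0 i k.succ))
    refine ⟨p, fun t => ?_⟩
    rw [← hp' t, ← hs (Equiv.swap 0 i) (Function.update x i t)]
    congr 1
    funext k
    refine Fin.cases ?_ (fun k => ?_) k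
    · simp
    · simp only [Function.comp_apply, Fin.cons_succ]
      rw [Function.update_of_ne]
      intro h
      have := congrArg (Equiv.swap 0 i) h
      rw [Equiv.swap_apply_self, Equiv.swap_apply_right] at this
      exact Fin.succ_ne_zero _ this
  have hqne : ∀ {M : ℕ} {y : Fin M → K}, Gen y → ∀ k, y k ≠ q := by
    intro M y hy k h
    apply hy.hD k k
    rw [h]; unfold D; linear_combination hq
  -- step 1
  have step1 : ∀ (y : Fin (2 * n) → K), Gen y → ∀ s,
      H (Fin.cons q (Fin.cons s y : Fin (2 * n + 1) → K) : Fin (2 * n + 2) → K) = 0 := by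
    intro y hy s
    obtain ⟨g, hg⟩ := hc y hy.inj (hqne hy)
    -- the polynomial in `s`
    have hdeg : ∃ p : K[X], p.natDegree ≤ 4 * n + 2 ∧ ∀ s,
        H (Fin.cons q (Fin.cons s y : Fin (2 * n + 1) → K) : Fin (2 * n + 2) → K) = p.eval s := by
      obtain ⟨p, hp1, hp2⟩ := hp (Fin.cons q y)
      refine ⟨p, hp1 ?_, fun s => ?_⟩
      · rw [Fin.cons_injective_iff]
        refine ⟨?_, hy.inj⟩
        rintro ⟨k, hk⟩
        exact hqne hy k hk
      · rw [← hp2 s, ← hs (Equiv.swap 0 1)]
        congr 1
        funext k
        refine Fin.cases ?_ (fun k => Fin.cases ?_ (fun k => ?_) k) k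
        · simp only [Function.comp_apply, Equiv.swap_apply_left, Fin.cons_zero]
          rfl
        · show (Fin.cons q (Fin.cons s y : Fin (2 * n + 1) → K) : Fin (2 * n + 2) → K)
            (Equiv.swap 0 1 1) = _
          rw [Equiv.swap_apply_right]
          rfl
        · simp only [Function.comp_apply]
          rw [Equiv.swap_apply_of_ne_of_ne (Fin.succ_ne_zero _)]
          · rfl
          · intro h
            rw [← Fin.succ_zero_eq_one, Fin.succ_inj] at h
            exact Fin.succ_ne_zero _ h
    obtain ⟨p, hp1, hp2⟩ := hdeg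
    have hpg : p = (X - C q) ^ 3 * g := by
      apply Polynomial.funext
      intro t
      rw [← hp2, hg]
      simp
    have hg0 : g = 0 := by
      by_contra hgne
      have hd : g.natDegree + 3 ≤ 4 * n + 2 := by
        rw [hpg, natDegree_mul (pow_ne_zero 3 (X_sub_C_ne_zero q)) hgne, natDegree_pow,
          natDegree_X_sub_C] at hp1
        omega
      apply hgne
      apply eq_zero_of_natDegree_lt_card_of_eval_eq_zero g (zeros_inj hy)
      · intro a
        have hinj : Function.Injective (Fin.cons q (Fin.cons ((Sum.elim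
            (fun j => 1 / (1 - y j)) (fun j => (y j - 1) / y j) : Fin (2 * n) ⊕ Fin (2 * n) → K) a)
            y : Fin (2 * n + 1) → K) : Fin (2 * n + 2) → K) := by
          rw [Fin.cons_injective_iff, Fin.cons_injective_iff]
          refine ⟨?_, ?_, hy.inj⟩
          · rintro ⟨k, hk⟩
            revert hk
            refine Fin.cases ?_ (fun k => ?_) k
            · rw [Fin.cons_zero]
              exact zeros_ne_q hy hq a
            · rw [Fin.cons_succ]
              exact hqne hy k
          · rintro ⟨k, hk⟩
            exact zeros_ne_y hy a k hk.symm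
        have h1 : H (Fin.cons q (Fin.cons ((Sum.elim (fun j => 1 / (1 - y j))
            (fun j => (y j - 1) / y j) : Fin (2 * n) ⊕ Fin (2 * n) → K) a) y :
            Fin (2 * n + 1) → K) : Fin (2 * n + 2) → K) = 0 := by
          rcases a with j | j
          · apply zero_of_pair' hs hr hinj (i := 1) (j := j.succ.succ)
            · intro h
              rw [← Fin.succ_zero_eq_one, Fin.succ_inj] at h
              exact Fin.succ_ne_zero _ h.symm
            · show 1 - 1 / (1 - y j) + 1 / (1 - y j) * y j = 0
              have : 1 - y j ≠ 0 := sub_ne_zero.mpr (hy.h1 j).symm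
              field_simp
              ring
          · apply zero_of_pair' hs hr hinj (i := j.succ.succ) (j := 1)
            · intro h
              rw [← Fin.succ_zero_eq_one, Fin.succ_inj] at h
              exact Fin.succ_ne_zero _ h
            · show 1 - y j + y j * ((y j - 1) / y j) = 0
              have := hy.h0 j
              field_simp
              ring
        rw [hg] at h1
        refine (mul_eq_zero.mp h1).resolve_left (pow_ne_zero 3 (sub_ne_zero.mpr ?_))
        exact zeros_ne_q hy hq a
      · rw [Fintype.card_sum, Fintype.card_fin]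
        omega
    rw [hg, hg0, eval_zero, mul_zero]
  -- step 2
  have step2 : ∀ (y : Fin (2 * n + 1) → K), Gen y → ∀ t,
      H (Fin.cons t y : Fin (2 * n + 2) → K) = 0 := by
    intro y hy t
    obtain ⟨p, hp1, hp2⟩ := hp y
    have hp0 : p = 0 := by
      set f : Option (Fin (2 * n + 1) ⊕ Fin (2 * n + 1)) → K := fun o => o.elim q
        (Sum.elim (fun j => 1 / (1 - y j)) (fun j => (y j - 1) / y j)) with hf
      apply eq_zero_of_natDegree_lt_card_of_eval_eq_zero p (f := f)
      · intro a b hab
        rcases a with _ | a <;> rcases b with _ | b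
        · rfl
        · exact absurd hab.symm (zeros_ne_q hy hq b)
        · exact absurd hab (zeros_ne_q hy hq a)
        · rw [zeros_inj hy hab]
      · intro a
        rcases a with _ | a
        · rw [← hp2]
          show H (Fin.cons q y) = 0
          have e : y = (Fin.cons (y 0) (fun k => y k.succ) : Fin (2 * n + 1) → K) := by
            funext k
            refine Fin.cases rfl (fun k => rfl) k
          rw [e]
          apply step1
          exact ⟨fun i j h => Fin.succ_injective _ (hy.inj h), fun i j => hy.hD _ _,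
            fun i => hy.h0 _, fun i => hy.h1 _⟩
        · rw [← hp2]
          have hinj : Function.Injective (Fin.cons (f (some a)) y : Fin (2 * n + 2) → K) := by
            rw [Fin.cons_injective_iff]
            refine ⟨?_, hy.inj⟩
            rintro ⟨k, hk⟩
            exact zeros_ne_y hy a k hk.symm
          rcases a with j | j
          · apply zero_of_pair' hs hr hinj (i := 0) (j := j.succ)
            · exact (Fin.succ_ne_zero j).symm
            · show 1 - 1 / (1 - y j) + 1 / (1 - y j) * y j = 0
              have : 1 - y j ≠ 0 := sub_ne_zero.mpr (hy.h1 j).symm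
              field_simp
              ring
          · apply zero_of_pair' hs hr hinj (i := j.succ) (j := 0)
            · exact Fin.succ_ne_zero j
            · show 1 - y j + y j * ((y j - 1) / y j) = 0
              have := hy.h0 j
              field_simp
              ring
      · rw [Fintype.card_option, Fintype.card_sum, Fintype.card_fin]
        have := hp1 hy.inj
        omega
    rw [hp2, hp0, eval_zero]
  apply dense hpi
  intro x hx
  have e : x = (Fin.cons (x 0) (fun k => x k.succ) : Fin (2 * n + 2) → K) := by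
    funext k
    refine Fin.cases rfl (fun k => rfl) k
  rw [e]
  apply step2
  exact ⟨fun i j h => Fin.succ_injective _ (hx.inj h), fun i j => hx.hD _ _,
    fun i => hx.h0 _, fun i => hx.h1 _⟩

/-- **Determinant formula**, algebraic form, hypotheses at injective points. -/
theorem eq_MM' {w q : K} (hw : w ≠ 0) (hq : q ^ 2 - q + 1 = 0) (F : ∀ n, (Fin (2 * n) → K) → K)
    (h0 : ∀ x, F 0 x = 1)
    (hsymm : ∀ n (σ : Equiv.Perm (Fin (2 * n))) x, F n (x ∘ σ) = F n x)
    (hpoly : ∀ n (y : Fin (2 * n + 1) → K), ∃ p : K[X],
      (Function.Injective y → p.natDegree ≤ 4 * n + 2) ∧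
      ∀ t, F (n + 1) (Fin.cons t y : Fin (2 * n + 2) → K) = p.eval t)
    (hrec : ∀ n (a b : K) (y : Fin (2 * n) → K), 1 - a + a * b = 0 →
      Function.Injective (Fin.cons a (Fin.cons b y : Fin (2 * n + 1) → K) :
        Fin (2 * n + 2) → K) →
      F (n + 1) (Fin.cons a (Fin.cons b y : Fin (2 * n + 1) → K) : Fin (2 * n + 2) → K) =
        ((a - b) * ∏ k, (D (y k) b * D a (y k))) ^ 2 * F n y)
    (hcal : ∀ n (y : Fin (2 * n) → K), Function.Injective y → (∀ k, y k ≠ q) →
      ∃ g : K[X], ∀ s,
      F (n + 1) (Fin.cons q (Fin.cons s y : Fin (2 * n + 1) → K) : Fin (2 * n + 2) → K) =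
        -(w + w⁻¹ + 2) * (s - q) ^ 2 * (∏ k, (y k - q) ^ 4) * F n y + (s - q) ^ 3 * g.eval s) :
    ∀ n x, F n x = (-1) ^ n * (w ^ n)⁻¹ * MvPolynomial.eval x (MM (2 * n) w) := by
  intro n
  induction n with
  | zero =>
    intro x
    rw [h0]
    have := MM_zero w x
    simp only [pow_zero, inv_one, one_mul]
    exact this.symm
  | succ n ih =>
    set c : ℕ → K := fun n => (-1) ^ n * (w ^ n)⁻¹ with hc
    have hcs : c (n + 1) = -w⁻¹ * c n := by
      simp only [hc, pow_succ, mul_inv]; ring
    set H : (Fin (2 * n + 2) → K) → K := fun x =>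
      F (n + 1) x - c (n + 1) * MvPolynomial.eval x (MM (2 * n + 2) w) with hH
    have hH0 : ∀ x, H x = 0 := by
      apply uniq' hq
      · intro σ x
        have h1 := hsymm (n + 1) σ x
        have h2 := MM_perm w σ x
        simp only [hH]
        rw [h2]
        congr 1
      · intro y
        obtain ⟨p, hp1, hp2⟩ := hpoly n y
        refine ⟨p - C (c (n + 1)) * pol (2 * n + 1) w y, fun hy => ?_, fun t => ?_⟩
        · refine (natDegree_sub_le _ _).trans (max_le (hp1 hy) ?_)
          refine (natDegree_C_mul_le _ _).trans ?_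
          have := natDegree_pol_le w hy
          omega
        · simp only [hH]
          rw [hp2, eval_sub, eval_mul, eval_C, pol_eval]
      · intro a b y hab hinj
        simp only [hH]
        rw [hrec n a b y hab hinj, MM_rec w a b hab, ih y, hcs]
        have : (-1 : K) ^ n * (w ^ n)⁻¹ = c n := rfl
        rw [this]
        field_simp
        ring
      · intro y hyi hy
        obtain ⟨g, hg⟩ := hcal n y hyi hy
        -- the polynomial of `MM` in the second variable
        have e0 : MvPolynomial.eval (Fin.cons q y : Fin (2 * n + 1) → K) (MM (2 * n + 1) w) =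
            (w + 1) * (∏ k, (y k - q) ^ 2) * MvPolynomial.eval y (MM (2 * n) w) := MM_q w q hq y
        obtain ⟨r, hr⟩ : ∃ r : K[X], pol (2 * n) w y =
            C ((pol (2 * n) w y).eval q) + (X - C q) * r := by
          have h2 : (X - C q) ∣ pol (2 * n) w y - C ((pol (2 * n) w y).eval q) :=
            X_sub_C_dvd_sub_C_eval
          obtain ⟨r, hr⟩ := h2
          exact ⟨r, by rw [← hr]; ring⟩
        have e1 : ∀ s, MvPolynomial.eval (Fin.cons q (Fin.cons s y : Fin (2 * n + 1) → K) :
            Fin (2 * n + 2) → K) (MM (2 * n + 2) w) =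
            (w + 1) * ((s - q) ^ 2 * ∏ k, (y k - q) ^ 2) *
              ((w + 1) * (∏ k, (y k - q) ^ 2) * MvPolynomial.eval y (MM (2 * n) w) +
                (s - q) * r.eval s) := by
          intro s
          rw [MM_q w q hq, Fin.prod_univ_succ]
          simp only [Fin.cons_zero, Fin.cons_succ]
          have h1 := pol_eval w y s
          have h2 := pol_eval w y q
          rw [← h1, ← e0, ← h2]
          conv_lhs => rw [hr]
          simp only [eval_add, eval_C, eval_mul, eval_sub, eval_X]
        refine ⟨g - C (c (n + 1) * (w + 1) * ∏ k, (y k - q) ^ 2) * r, fun s => ?_⟩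
        simp only [hH]
        rw [hg, e1, ih y, hcs]
        have h3 : (∏ k, (y k - q) ^ 4) = (∏ k, (y k - q) ^ 2) * ∏ k, (y k - q) ^ 2 := by
          rw [← Finset.prod_mul_distrib]
          exact Finset.prod_congr rfl fun k _ => by ring
        have h4 : (-1 : K) ^ n * (w ^ n)⁻¹ = c n := rfl
        rw [h3, h4]
        simp only [eval_sub, eval_mul, eval_C]
        field_simp
        ring
    intro x
    have := hH0 x
    simp only [hH] at this
    exact sub_eq_zero.mp this

end Pool.Agent.H98.Izer
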