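import Pool.Agent.H98.Izer.Cal
import Pool.Agent.H98.Izer.Uniq2

/-!
# The determinant at a primitive sixth root of unity is a square of a product of alternants
-/

namespace Pool.Agent.H98.Izer

open Finset Polynomial
open Pool.Agent.H68.Izer

/-- the functions as polynomials -/
noncomputable def ff {R : Type*} [CommRing R] (e n : ℕ) (r q : R) (k : Fin (2 * n)) : R[X] :=
  va e n k (C r - X) (X - C q)

lemma ff_eval {R : Type*} [CommRing R] (e n : ℕ) (r q : R) (k : Fin (2 * n)) (t : R) :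
    (ff e n r q k).eval t = va e n k (r - t) (t - q) := by
  unfold ff
  have := map_va (evalRingHom t) e n k (C r - X) (X - C q)
  simpa using this

lemma ff_map {R S : Type*} [CommRing R] [CommRing S] (φ : R →+* S) (e n : ℕ) (r q : R)
    (k : Fin (2 * n)) : (ff e n r q k).map φ = ff e n (φ r) (φ q) k := by
  unfold ff
  have := map_va (mapRingHom φ) e n k (C r - X) (X - C q)
  simpa using this

/-- `sch` for the two families -/
noncomputable def sc {R : Type*} [CommRing R] (e n : ℕ) (r q : R) (x : Fin (2 * n) → R) : R :=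
  sch (ff e n r q) x

lemma map_sc {R S : Type*} [CommRing R] [CommRing S] (φ : R →+* S) (e n : ℕ) (r q : R)
    (x : Fin (2 * n) → R) : φ (sc e n r q x) = sc e n (φ r) (φ q) (fun i => φ (x i)) := by
  unfold sc
  rw [map_sch]
  congr 1
  funext k
  exact ff_map φ e n r q k

lemma alt_eq {R : Type*} [CommRing R] [Nontrivial R] (e n : ℕ) (r q : R) (x : Fin (2 * n) → R) :
    alt e n (fun i => r - x i) (fun i => x i - q) = vd x * sc e n r q x := by
  unfold sc
  rw [← det_eval_eq]
  unfold alt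
  congr 1
  ext i k
  simp only [Matrix.of_apply]
  exact (ff_eval e n r q k (x i)).symm

lemma cons_fun {α β : Type*} {L : ℕ} (f : α → β) (a : α) (y : Fin L → α) :
    (fun i => f ((Fin.cons a y : Fin (L + 1) → α) i)) =
      (Fin.cons (f a) (fun i => f (y i)) : Fin (L + 1) → β) := by
  funext i
  refine Fin.cases rfl (fun i => rfl) i

lemma alt_congr {R : Type*} [CommRing R] {e n : ℕ} {p p' m m' : Fin (2 * (n + 1)) → R}
    (hp : p = p') (hm : m = m') : alt e (n + 1) p m = alt e (n + 1) p' m' := by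
  rw [hp, hm]

/-- normalisation -/
noncomputable def cc (K : Type*) [Field K] (n : ℕ) : K := ∏ k ∈ range n, ((3 : K) ^ (6 * k + 1))⁻¹

variable {K : Type*} [Field K] [CharZero K]

omit [CharZero K] in
lemma cc_succ (n : ℕ) : cc K (n + 1) = cc K n * ((3 : K) ^ (6 * n + 1))⁻¹ := by
  unfold cc
  rw [prod_range_succ]

/-- the square root of the determinant -/
noncomputable def SS (q : K) (n : ℕ) (x : Fin (2 * n) → K) : K :=
  cc K n * (sc 1 n (1 - q) q x * sc 2 n (1 - q) q x)

omit [CharZero K] in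
lemma SS_zero (q : K) (x : Fin (2 * 0) → K) : SS q 0 x = 1 := by
  have h : ∀ e, sc e 0 (1 - q) q x = 1 := fun e => sch_zero (ff e 0 (1 - q) q) x
  unfold SS cc
  rw [h, h]
  simp

omit [CharZero K] in
lemma SS_perm (q : K) (n : ℕ) (σ : Equiv.Perm (Fin (2 * n))) (x : Fin (2 * n) → K) :
    SS q n (x ∘ σ) = SS q n x := by
  unfold SS sc
  rw [sch_perm, sch_perm]

omit [CharZero K] in
lemma SS_poly (q : K) (n : ℕ) (y : Fin (2 * n + 1) → K) : ∃ p : K[X],
      (Function.Injective y → p.natDegree ≤ 2 * n + 1) ∧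
      ∀ t, SS q (n + 1) (Fin.cons t y : Fin (2 * n + 2) → K) = p.eval t := by
  set x : Fin (2 * n + 2) → K[X] := Fin.cons X (fun i => C (y i)) with hx
  have hx' : ∀ e, alt e (n + 1) (fun i => C (1 - q) - x i) (fun i => x i - C q) =
      vd x * sc e (n + 1) (C (1 - q)) (C q) x := fun e => alt_eq e (n + 1) _ _ x
  refine ⟨C (cc K (n + 1)) * (sc 1 (n + 1) (C (1 - q)) (C q) x *
    sc 2 (n + 1) (C (1 - q)) (C q) x), ?_, ?_⟩
  · intro hy
    set S : K[X] := sc 1 (n + 1) (C (1 - q)) (C q) x * sc 2 (n + 1) (C (1 - q)) (C q) x with hS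
    refine (natDegree_C_mul_le _ _).trans ?_
    rcases eq_or_ne S 0 with h0 | h0
    · rw [h0]; simp
    · have h1 : vd x ^ 2 * S = alt 1 (n + 1) (fun i => C (1 - q) - x i) (fun i => x i - C q) *
          alt 2 (n + 1) (fun i => C (1 - q) - x i) (fun i => x i - C q) := by
        rw [hx', hx', hS]; ring
      have hd : ∀ e, (alt e (n + 1) (fun i => C (1 - q) - x i)
          (fun i => x i - C q)).natDegree ≤ 3 * n + e := by
        intro e
        have e1 : (fun i => C (1 - q) - x i) = (Fin.cons (C (1 - q) - X)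
            (fun i => C (1 - q - y i)) : Fin (2 * n + 2) → K[X]) := by
          rw [hx, cons_fun (fun z => C (1 - q) - z)]
          congr 1
          funext i
          rw [← C_sub]
        have e2 : (fun i => x i - C q) = (Fin.cons (X - C q)
            (fun i => C (y i - q)) : Fin (2 * n + 2) → K[X]) := by
          rw [hx, cons_fun (fun z => z - C q)]
          congr 1
          funext i
          rw [← C_sub]
        exact (le_of_eq (congrArg natDegree (alt_congr e1 e2))).trans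
          (natDegree_alt e n (1 - q) q _ _)
      have h2 : (vd x ^ 2 * S).natDegree ≤ 6 * n + 3 := by
        rw [h1]
        refine natDegree_mul_le.trans ?_
        have := hd 1
        have := hd 2
        omega
      have hv : vd x = (∏ k : Fin (2 * n + 1), (C (y k) - X : K[X])) * C (vd y) := by
        rw [hx, vd_cons]
        congr 1
        exact (map_vd C y).symm
      have hvne : (C (vd y) : K[X]) ≠ 0 := by
        rw [Ne, C_eq_zero]; exact vd_ne_zero_of_inj hy
      have hlin : ∀ k : Fin (2 * n + 1), (C (y k) - X : K[X]) ≠ 0 := by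
        intro k h
        have := congrArg (Polynomial.eval (y k + 1)) h
        simp at this
      have hprod : (∏ k : Fin (2 * n + 1), (C (y k) - X : K[X])) ≠ 0 := by
        rw [Finset.prod_ne_zero_iff]; exact fun k _ => hlin k
      have hdeg : (∏ k : Fin (2 * n + 1), (C (y k) - X : K[X])).natDegree = 2 * n + 1 := by
        rw [natDegree_prod _ _ (fun k _ => hlin k)]
        have : ∀ k : Fin (2 * n + 1), (C (y k) - X : K[X]).natDegree = 1 := by
          intro k
          have : (C (y k) - X : K[X]) = -(X - C (y k)) := by ring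
          rw [this, natDegree_neg, natDegree_X_sub_C]
        simp [this]
      rw [hv, natDegree_mul (pow_ne_zero 2 (mul_ne_zero hprod hvne)) h0, natDegree_pow,
        natDegree_mul hprod hvne, hdeg, natDegree_C] at h2
      omega
  · intro t
    have h : ∀ e, (sc e (n + 1) (C (1 - q)) (C q) x).eval t =
        sc e (n + 1) (1 - q) q (Fin.cons t y : Fin (2 * n + 2) → K) := by
      intro e
      have := map_sc (evalRingHom t) e (n + 1) (C (1 - q)) (C q) x
      simp only [coe_evalRingHom, eval_C] at this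
      rw [this]
      congr 1
      funext i
      refine Fin.cases ?_ (fun i => ?_) i
      · exact eval_X
      · exact eval_C
    rw [eval_mul, eval_C, eval_mul, h, h]
    rfl

lemma SS_rec (q : K) (hq : q ^ 2 - q + 1 = 0) (n : ℕ) (a b : K) (y : Fin (2 * n) → K)
    (hab : 1 - a + a * b = 0)
    (hinj : Function.Injective (Fin.cons a (Fin.cons b y : Fin (2 * n + 1) → K) :
        Fin (2 * n + 2) → K)) :
    SS q (n + 1) (Fin.cons a (Fin.cons b y : Fin (2 * n + 1) → K) : Fin (2 * n + 2) → K) =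
      ((a - b) * ∏ k, (D (y k) b * D a (y k))) * SS q n y := by
  set x : Fin (2 * n + 2) → K := Fin.cons a (Fin.cons b y : Fin (2 * n + 1) → K) with hx
  set r : K := 1 - q with hr
  have hvx : vd x ≠ 0 := vd_ne_zero_of_inj hinj
  rw [Fin.cons_injective_iff, Fin.cons_injective_iff] at hinj
  obtain ⟨hi1, hi2, hi3⟩ := hinj
  have hne : a ≠ b := by
    intro h
    exact hi1 ⟨0, by simp [h]⟩
  have ha0 : a ≠ 0 := by
    rintro rfl
    simp at hab
  have hpa : r - a = r * a * (r - b) := by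
    rw [hr]
    linear_combination (1 - q) * hab - a * hq
  have hma : a - q = q * a * (b - q) := by
    linear_combination -q * hab + a * hq
  have hmb : b - q ≠ 0 := by
    intro h
    apply hne
    have : a - q = 0 := by rw [hma, h, mul_zero]
    linear_combination this - h
  have hcube : (r - a) ^ 3 * (b - q) ^ 3 = (a - q) ^ 3 * (r - b) ^ 3 := by
    rw [hpa, hma, hr]
    linear_combination (a * ((1 - q) - b) * (b - q)) ^ 3 * (1 - 2 * q) * hq
  have hx1 : ∀ e, alt e (n + 1) (fun i => r - x i) (fun i => x i - q) =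
      vd x * sc e (n + 1) r q x := fun e => alt_eq e (n + 1) _ _ x
  have hy1 : ∀ e, alt e n (fun i => r - y i) (fun i => y i - q) =
      vd y * sc e n r q y := fun e => alt_eq e n _ _ y
  have hrec : ∀ e, alt e (n + 1) (fun i => r - x i) (fun i => x i - q) *
        ((b - q) ^ 3) ^ (2 * n) =
      ((a - q) ^ 3 * (b - q) ^ 3) ^ n * ((a - q) ^ e * (r - b) ^ e - (r - a) ^ e * (b - q) ^ e) *
        (∏ i, ((r - y i) ^ 3 * (b - q) ^ 3 - (y i - q) ^ 3 * (r - b) ^ 3)) *
        alt e n (fun i => r - y i) (fun i => y i - q) := by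
    intro e
    have := alt_rec e n (r - a) (r - b) (a - q) (b - q) hcube (fun i => r - y i)
      (fun i => y i - q)
    have e1 : (fun i => r - x i) = (Fin.cons (r - a) (Fin.cons (r - b) (fun i => r - y i) :
        Fin (2 * n + 1) → K) : Fin (2 * n + 2) → K) := by
      funext i
      refine Fin.cases rfl (fun i => Fin.cases rfl (fun i => rfl) i) i
    have e2 : (fun i => x i - q) = (Fin.cons (a - q) (Fin.cons (b - q) (fun i => y i - q) :
        Fin (2 * n + 1) → K) : Fin (2 * n + 2) → K) := by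
      funext i
      refine Fin.cases rfl (fun i => Fin.cases rfl (fun i => rfl) i) i
    exact (congrArg (fun z => z * ((b - q) ^ 3) ^ (2 * n)) (alt_congr e1 e2)).trans this
  have h1 := hrec 1
  have h2 := hrec 2
  rw [hx1, hy1] at h1 h2
  set A1 := sc 1 (n + 1) r q x
  set A2 := sc 2 (n + 1) r q x
  set B1 := sc 1 n r q y
  set B2 := sc 2 n r q y
  set PP : K := ∏ i, ((r - y i) ^ 3 * (b - q) ^ 3 - (y i - q) ^ 3 * (r - b) ^ 3) with hPP
  have hm3 : (a - q) ^ 3 = -a ^ 3 * (b - q) ^ 3 := by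
    rw [hma]
    linear_combination (a * (b - q)) ^ 3 * (q + 1) * hq
  have hpow : ((a - q) ^ 3 * (b - q) ^ 3) ^ n * ((a - q) ^ 3 * (b - q) ^ 3) ^ n =
      a ^ (6 * n) * (((b - q) ^ 3) ^ (2 * n) * ((b - q) ^ 3) ^ (2 * n)) := by
    rw [hm3, ← mul_pow, ← mul_pow, pow_mul, pow_mul, ← mul_pow]
    congr 1
    ring
  have hsm : (a - b) = -a * ((b - q) * (r - b)) := by
    rw [hr]
    linear_combination -b * hab + a * hq
  have hf : ((a - q) ^ 1 * (r - b) ^ 1 - (r - a) ^ 1 * (b - q) ^ 1) *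
      ((a - q) ^ 2 * (r - b) ^ 2 - (r - a) ^ 2 * (b - q) ^ 2) = 3 * (a - b) ^ 3 := by
    rw [hpa, hma, hsm, hr]
    linear_combination (a * ((b - q) * ((1 - q) - b))) ^ 3 * 4 * hq
  have hPP2 : a ^ (6 * n) * PP ^ 2 = 27 ^ (2 * n) * (∏ k, (y k - a)) ^ 2 * (∏ k, (y k - b)) ^ 2 *
      ∏ k, (D (y k) b * D a (y k)) := by
    have e1 : (27 : K) ^ (2 * n) = ∏ _k : Fin (2 * n), (-27 : K) := by
      rw [prod_const, card_univ, Fintype.card_fin, neg_pow, (even_two_mul n).neg_one_pow, one_mul]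
    have e2 : a ^ (6 * n) = ∏ _k : Fin (2 * n), a ^ 3 := by
      rw [prod_const, card_univ, Fintype.card_fin, ← pow_mul]
      congr 1; ring
    rw [e1, e2, hPP, ← prod_pow, ← prod_pow, ← prod_pow, ← prod_mul_distrib, ← prod_mul_distrib,
      ← prod_mul_distrib, ← prod_mul_distrib]
    refine prod_congr rfl fun k _ => ?_
    have k1 : a * ((r - y k) ^ 3 * (b - q) ^ 3 - (y k - q) ^ 3 * (r - b) ^ 3) =
        (2 * q - 1) ^ 3 * ((y k - a) * (y k - b) * D (y k) b) := by
      rw [hr]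
      unfold D
      linear_combination (a * (6 * q ^ 3 * y k + -6 * q ^ 3 * b + -9 * q ^ 2 * y k + 9 * q ^ 2 * b + 8 * q * y k ^ 3 * b ^ 2 + -8 * q * y k ^ 3 * b + 2 * q * y k ^ 3 + -8 * q * y k ^ 2 * b ^ 3 + 6 * q * y k ^ 2 * b + -2 * q * y k ^ 2 + 8 * q * y k * b ^ 3 + -6 * q * y k * b ^ 2 + 5 * q * y k + -2 * q * b ^ 3 + 2 * q * b ^ 2 + -5 * q * b + -4 * y k ^ 3 * b ^ 2 + 4 * y k ^ 3 * b + -1 * y k ^ 3 + 4 * y k ^ 2 * b ^ 3 + -3 * y k ^ 2 * b + 1 * y k ^ 2 + -4 * y k * b ^ 3 + 3 * y k * b ^ 2 + -1 * y k + 1 * b ^ 3 + -1 * b ^ 2 + 1 * b)) * hq - (2 * q - 1) ^ 3 * (y k - b) *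
        (1 - b + y k * b) * y k * hab
    have k2 : a * D (y k) b = D a (y k) := by
      unfold D
      linear_combination (y k - 1) * hab
    have k3 : (2 * q - 1) ^ 6 = -27 := by
      linear_combination (64 * q ^ 4 - 128 * q ^ 3 + 48 * q ^ 2 + 16 * q + 28) * hq
    calc a ^ 3 * ((r - y k) ^ 3 * (b - q) ^ 3 - (y k - q) ^ 3 * (r - b) ^ 3) ^ 2
        = a * (a * ((r - y k) ^ 3 * (b - q) ^ 3 - (y k - q) ^ 3 * (r - b) ^ 3)) ^ 2 := by ring
      _ = (2 * q - 1) ^ 6 * (y k - a) ^ 2 * (y k - b) ^ 2 * (D (y k) b * (a * D (y k) b)) := by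
        rw [k1]; ring
      _ = _ := by rw [k2, k3]
  have hvd : vd x = (b - a) * (∏ k, (y k - a)) * (∏ k, (y k - b)) * vd y := by
    rw [hx, vd_cons, vd_cons, Fin.prod_univ_succ]
    simp only [Fin.cons_zero, Fin.cons_succ]
    ring
  have hZ : ((b - q) ^ 3) ^ (2 * n) ≠ 0 := pow_ne_zero _ (pow_ne_zero _ hmb)
  have key : vd x ^ 2 * (A1 * A2) = vd x ^ 2 * (3 * 27 ^ (2 * n) * (a - b) *
      (∏ k, (D (y k) b * D a (y k))) * (B1 * B2)) := by
    apply mul_left_cancel₀ (mul_ne_zero hZ hZ)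
    calc ((b - q) ^ 3) ^ (2 * n) * ((b - q) ^ 3) ^ (2 * n) * (vd x ^ 2 * (A1 * A2))
        = (vd x * A1 * ((b - q) ^ 3) ^ (2 * n)) * (vd x * A2 * ((b - q) ^ 3) ^ (2 * n)) := by ring
      _ = (((a - q) ^ 3 * (b - q) ^ 3) ^ n * ((a - q) ^ 3 * (b - q) ^ 3) ^ n) *
          (((a - q) ^ 1 * (r - b) ^ 1 - (r - a) ^ 1 * (b - q) ^ 1) *
            ((a - q) ^ 2 * (r - b) ^ 2 - (r - a) ^ 2 * (b - q) ^ 2)) * PP ^ 2 *
          (vd y ^ 2 * (B1 * B2)) := by
          rw [h1, h2]; ring
      _ = (((b - q) ^ 3) ^ (2 * n) * ((b - q) ^ 3) ^ (2 * n)) * (3 * (a - b) ^ 3) *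
          (a ^ (6 * n) * PP ^ 2) * (vd y ^ 2 * (B1 * B2)) := by
          rw [hpow, hf]; ring
      _ = _ := by
          rw [hPP2, hvd]; ring
  have hS := mul_left_cancel₀ (pow_ne_zero 2 hvx) key
  unfold SS
  rw [cc_succ]
  have h3 : ((3 : K) ^ (6 * n + 1)) ≠ 0 := pow_ne_zero _ (by norm_num)
  have h27 : (3 : K) * 27 ^ (2 * n) = 3 ^ (6 * n + 1) := by
    rw [show (27 : K) = 3 ^ 3 by norm_num, ← pow_mul, pow_succ]
    ring
  change cc K n * ((3 : K) ^ (6 * n + 1))⁻¹ * (A1 * A2) = _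
  rw [hS, h27]
  field_simp
  rfl

lemma SS_cal (q : K) (hq : q ^ 2 - q + 1 = 0) (n : ℕ) (y : Fin (2 * n) → K)
    (hy : Function.Injective y) (hyq : ∀ k, y k ≠ q) :
    ∃ g : K[X], ∀ s,
      SS q (n + 1) (Fin.cons q (Fin.cons s y : Fin (2 * n + 1) → K) : Fin (2 * n + 2) → K) =
        (s - q) * ((2 * q - 1) * (∏ k, (y k - q) ^ 2) * SS q n y + (s - q) * g.eval s) := by
  set r : K := 1 - q with hr
  set x : Fin (2 * n + 2) → K[X] := Fin.cons (C q) (Fin.cons X (fun i => C (y i)) :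
    Fin (2 * n + 1) → K[X]) with hx
  set E : ℕ → K[X] := fun e => EE e n (C r - X) (X - C q) (fun i => C (r - y i))
    (fun i => C (y i - q)) with hE
  set A : ℕ → K[X] := fun e => sc e (n + 1) (C r) (C q) x with hA
  have hx1 : ∀ e, alt e (n + 1) (fun i => C r - x i) (fun i => x i - C q) =
      vd x * A e := fun e => alt_eq e (n + 1) _ _ x
  have hcal : ∀ e, 1 ≤ e → e ≤ 2 → vd x * A e =
      -(C r - C q) ^ (3 * n + e) * (X - C q) ^ e * E e := by
    intro e he he2
    rw [← hx1]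
    have e1 : (fun i => C r - x i) = (Fin.cons (C r - C q) (Fin.cons (C r - X)
        (fun i => C (r - y i)) : Fin (2 * n + 1) → K[X]) : Fin (2 * n + 2) → K[X]) := by
      funext i
      refine Fin.cases rfl (fun i => Fin.cases rfl (fun i => ?_) i) i
      exact (C_sub).symm
    have e2 : (fun i => x i - C q) = (Fin.cons 0 (Fin.cons (X - C q)
        (fun i => C (y i - q)) : Fin (2 * n + 1) → K[X]) : Fin (2 * n + 2) → K[X]) := by
      funext i
      refine Fin.cases ?_ (fun i => Fin.cases rfl (fun i => ?_) i) i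
      · exact sub_self (C q)
      · exact (C_sub).symm
    exact (alt_congr e1 e2).trans (alt_cal e n he he2 _ _ _ _ _)
  have h1 := hcal 1 le_rfl (by norm_num)
  have h2 := hcal 2 (by norm_num) le_rfl
  have hvd : vd x = (X - C q) * (∏ k, (C (y k) - C q)) * (∏ k, (C (y k) - X)) * C (vd y) := by
    rw [hx, vd_cons, vd_cons, Fin.prod_univ_succ]
    simp only [Fin.cons_zero, Fin.cons_succ]
    have : vd (fun k => C (y k) : Fin (2 * n) → K[X]) = C (vd y) := (map_vd C y).symm
    rw [this]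
    ring
  have hXne : (X - C q : K[X]) ≠ 0 := X_sub_C_ne_zero q
  -- divide by (X - q)^2
  have h3 : ((∏ k, (C (y k) - C q)) * (∏ k, (C (y k) - X)) * C (vd y)) ^ 2 * (A 1 * A 2) =
      (C r - C q) ^ (6 * n + 3) * (X - C q) * (E 1 * E 2) := by
    apply mul_left_cancel₀ (pow_ne_zero 2 hXne)
    calc (X - C q) ^ 2 * (((∏ k, (C (y k) - C q)) * (∏ k, (C (y k) - X)) * C (vd y)) ^ 2 *
        (A 1 * A 2)) = (vd x * A 1) * (vd x * A 2) := by rw [hvd]; ring
      _ = _ := by
        rw [h1, h2, show 6 * n + 3 = (3 * n + 1) + (3 * n + 2) by ring, pow_add]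
        ring
  have hvy : vd y ≠ 0 := vd_ne_zero_of_inj hy
  have hyp : (∏ k, (y k - q)) ≠ 0 := by
    rw [prod_ne_zero_iff]
    intro k _
    exact sub_ne_zero.mpr (hyq k)
  have ev1 : (∏ k : Fin (2 * n), (C (y k) - C q : K[X])).eval q = ∏ k, (y k - q) := by
    rw [eval_prod]; simp
  have ev2 : (∏ k : Fin (2 * n), (C (y k) - X : K[X])).eval q = ∏ k, (y k - q) := by
    rw [eval_prod]; simp
  have h4 := congrArg (eval q) h3
  rw [eval_mul, eval_pow, eval_mul, eval_mul, ev1, ev2, eval_C, eval_mul (p := _ * _),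
    eval_mul (p := (C r - C q) ^ (6 * n + 3)), eval_sub, eval_X, eval_C, sub_self, mul_zero,
    zero_mul] at h4
  have h5 : (A 1 * A 2).eval q = 0 :=
    (mul_eq_zero.mp h4).resolve_left (pow_ne_zero 2 (mul_ne_zero (mul_ne_zero hyp hyp) hvy))
  obtain ⟨S, hS⟩ : (X - C q) ∣ A 1 * A 2 := dvd_iff_isRoot.mpr h5
  have h6 : ((∏ k, (C (y k) - C q)) * (∏ k, (C (y k) - X)) * C (vd y)) ^ 2 * S =
      (C r - C q) ^ (6 * n + 3) * (E 1 * E 2) := by
    apply mul_left_cancel₀ hXne
    calc (X - C q) * (((∏ k, (C (y k) - C q)) * (∏ k, (C (y k) - X)) * C (vd y)) ^ 2 * S) =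
        ((∏ k, (C (y k) - C q)) * (∏ k, (C (y k) - X)) * C (vd y)) ^ 2 * (A 1 * A 2) := by
          rw [hS]; ring
      _ = _ := by rw [h3]; ring
  have hEq : ∀ e, e ≤ 2 → (E e).eval q = (r - q) ^ (3 * n) * (∏ i, (y i - q) ^ 3) *
      alt e n (fun i => r - y i) (fun i => y i - q) := by
    intro e he2
    have := map_EE (evalRingHom q) e n (C r - X) (X - C q) (fun i => C (r - y i))
      (fun i => C (y i - q))
    simp only [coe_evalRingHom, eval_sub, eval_C, eval_X, sub_self] at this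
    rw [EE_zero e n he2] at this
    exact this
  have hy1 : ∀ e, alt e n (fun i => r - y i) (fun i => y i - q) =
      vd y * sc e n r q y := fun e => alt_eq e n _ _ y
  have h7 := congrArg (eval q) h6
  rw [eval_mul, eval_pow, eval_mul, eval_mul, ev1, ev2, eval_C, eval_mul, eval_pow, eval_sub,
    eval_C, eval_C, eval_mul, hEq 1 (by norm_num), hEq 2 le_rfl, hy1, hy1, prod_pow] at h7
  have h8 : S.eval q = (r - q) ^ (12 * n + 3) * (∏ k, (y k - q)) ^ 2 *
      (sc 1 n r q y * sc 2 n r q y) := by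
    apply mul_left_cancel₀ (pow_ne_zero 2 (mul_ne_zero (mul_ne_zero hyp hyp) hvy))
    rw [h7, show 12 * n + 3 = (6 * n + 3) + (3 * n + 3 * n) by ring, pow_add, pow_add]
    ring
  obtain ⟨S2, hS2⟩ : (X - C q) ∣ S - C (S.eval q) := X_sub_C_dvd_sub_C_eval
  have hδ : (r - q) ^ (12 * n + 3) = 3 ^ (6 * n + 1) * (2 * q - 1) := by
    have d1 : (r - q) ^ 2 = -3 := by
      rw [hr]
      linear_combination 4 * hq
    have d2 : (r - q) ^ (12 * n + 3) = ((r - q) ^ 2) ^ (6 * n + 1) * (r - q) := by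
      rw [← pow_mul, ← pow_succ]
      congr 1
      omega
    rw [d2, d1, neg_pow, pow_succ (-1 : K), show 6 * n = 2 * (3 * n) by ring,
      (even_two_mul (3 * n)).neg_one_pow, hr]
    ring
  refine ⟨C (cc K (n + 1)) * S2, fun s => ?_⟩
  have hev : ∀ e, (A e).eval s = sc e (n + 1) r q (Fin.cons q (Fin.cons s y :
      Fin (2 * n + 1) → K) : Fin (2 * n + 2) → K) := by
    intro e
    have := map_sc (evalRingHom s) e (n + 1) (C r) (C q) x
    simp only [coe_evalRingHom, eval_C] at this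
    rw [hA]
    refine this.trans ?_
    congr 1
    funext i
    refine Fin.cases ?_ (fun i => Fin.cases ?_ (fun i => ?_) i) i
    · exact eval_C
    · exact eval_X
    · exact eval_C
  have h9 : S = C (S.eval q) + (X - C q) * S2 := by rw [← hS2]; ring
  have h10 := congrArg (eval s) hS
  rw [eval_mul, hev, hev, eval_mul, h9] at h10
  simp only [eval_add, eval_C, eval_mul, eval_sub, eval_X] at h10
  unfold SS
  rw [h10, h8, hδ, cc_succ, prod_pow, eval_mul, eval_C, hr]
  have h3 : ((3 : K) ^ (6 * n + 1)) ≠ 0 := pow_ne_zero _ (by norm_num)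
  field_simp

/-- **The determinant is a square.** -/
theorem SS_sq {q : K} (hq : q ^ 2 - q + 1 = 0) (n : ℕ) (x : Fin (2 * n) → K) :
    (SS q n x) ^ 2 = (-1) ^ n * (q ^ n)⁻¹ * MvPolynomial.eval x (MM (2 * n) q) := by
  have hq0 : q ≠ 0 := by
    rintro rfl
    simp at hq
  have hqi : q⁻¹ = 1 - q := by
    field_simp
    linear_combination hq
  refine eq_MM' hq0 hq (fun n x => (SS q n x) ^ 2) ?_ ?_ ?_ ?_ ?_ n x
  · intro x
    simp only [SS_zero, one_pow]
  · intro n σ x
    simp only [SS_perm]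
  · intro n y
    obtain ⟨p, hp1, hp2⟩ := SS_poly q n y
    refine ⟨p ^ 2, fun hy => ?_, fun t => ?_⟩
    · refine (natDegree_pow_le).trans ?_
      have := hp1 hy
      omega
    · rw [eval_pow, ← hp2 t]
  · intro n a b y hab hinj
    have := SS_rec q hq n a b y hab hinj
    rw [this, mul_pow]
  · intro n y hy hyq
    obtain ⟨g, hg⟩ := SS_cal q hq n y hy hyq
    refine ⟨C (2 * ((2 * q - 1) * (∏ k, (y k - q) ^ 2) * SS q n y)) * g + (X - C q) * g ^ 2,
      fun s => ?_⟩
    rw [hg s, hqi]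
    simp only [eval_add, eval_mul, eval_C, eval_sub, eval_X, eval_pow]
    have e1 : (∏ k, (y k - q) ^ 4) = (∏ k, (y k - q) ^ 2) ^ 2 := by
      rw [← prod_pow]
      exact prod_congr rfl fun k _ => by ring
    rw [e1]
    linear_combination (4 * (s - q) ^ 2 * ((∏ k, (y k - q) ^ 2) * SS q n y) ^ 2) * hq

end Pool.Agent.H98.Izer
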