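import Pool.Agent.H68.Izer.Basic

/-!
# Quotients of alternants by the Vandermonde product

For polynomials `f k` and points `x i` over any commutative ring, the determinant of `f k (x i)`
is the Vandermonde product times `sch f x`, which is defined without division.
-/

namespace Pool.Agent.H98.Izer

open Finset Polynomial Matrix
open Pool.Agent.H68.Izer (vd)

variable {R : Type*} [CommRing R] {L : ℕ}

/-- the nodal polynomial -/
noncomputable def nod (x : Fin L → R) : R[X] := ∏ i, (X - C (x i))

lemma nod_monic (x : Fin L → R) : (nod x).Monic := monic_prod_X_sub_C x univ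

/-- the quotient of the alternant -/
noncomputable def sch (f : Fin L → R[X]) (x : Fin L → R) : R :=
  det (of fun k j : Fin L => (f k %ₘ nod x).coeff j)

lemma nod_map {S : Type*} [CommRing S] (φ : R →+* S) (x : Fin L → R) :
    (nod x).map φ = nod fun i => φ (x i) := by
  unfold nod
  rw [Polynomial.map_prod]
  simp

lemma map_sch {S : Type*} [CommRing S] (φ : R →+* S) (f : Fin L → R[X]) (x : Fin L → R) :
    φ (sch f x) = sch (fun k => (f k).map φ) (fun i => φ (x i)) := by
  unfold sch
  rw [RingHom.map_det]
  congr 1
  ext k j
  simp only [RingHom.mapMatrix_apply, Matrix.map_apply, of_apply]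
  rw [← Polynomial.coeff_map, Polynomial.map_modByMonic _ (nod_monic x), nod_map]

lemma sch_perm (f : Fin L → R[X]) (x : Fin L → R) (σ : Equiv.Perm (Fin L)) :
    sch f (x ∘ σ) = sch f x := by
  unfold sch
  have : nod (x ∘ σ) = nod x := Equiv.prod_comp σ fun i => (X - C (x i) : R[X])
  rw [this]

lemma sch_zero (f : Fin 0 → R[X]) (x : Fin 0 → R) : sch f x = 1 := by
  unfold sch
  exact det_isEmpty

lemma nod_natDegree [Nontrivial R] (x : Fin L → R) : (nod x).natDegree = L := by
  unfold nod
  rw [natDegree_prod_of_monic]
  · simp
  · intro i _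
    exact monic_X_sub_C _

lemma eval_mod [Nontrivial R] (p : R[X]) (x : Fin L → R) (i : Fin L) :
    p.eval (x i) = ∑ j : Fin L, (x i) ^ (j : ℕ) * (p %ₘ nod x).coeff j := by
  have h1 := Polynomial.modByMonic_add_div p (nod x)
  have h2 : (nod x).eval (x i) = 0 := by
    unfold nod
    rw [eval_prod]
    exact Finset.prod_eq_zero (mem_univ i) (by simp)
  have h3 : p.eval (x i) = (p %ₘ nod x).eval (x i) := by
    conv_lhs => rw [← h1]
    rw [eval_add, eval_mul, h2, zero_mul, add_zero]
  have h4 : (p %ₘ nod x).natDegree < L := by
    have := natDegree_modByMonic_lt p (nod_monic x) (by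
      intro h
      have h5 := nod_natDegree x
      rw [h, natDegree_one] at h5
      have := i.2
      omega)
    rwa [nod_natDegree] at this
  rw [h3, eval_eq_sum_range' h4, Finset.sum_range]
  refine sum_congr rfl fun j _ => ?_
  ring

/-- the alternant is the Vandermonde product times `sch` -/
theorem det_eval_eq [Nontrivial R] (f : Fin L → R[X]) (x : Fin L → R) :
    det (of fun i k : Fin L => (f k).eval (x i)) = vd x * sch f x := by
  unfold vd sch
  rw [← det_transpose (of fun k j : Fin L => (f k %ₘ nod x).coeff j), ← det_mul]
  congr 1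
  ext i k
  rw [Matrix.mul_apply]
  simp only [of_apply, transpose_apply, vandermonde_apply]
  exact eval_mod _ _ _

end Pool.Agent.H98.Izer
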