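import Pool.Agent.H98.Izer.SS
import Pool.Agent.H23.BO.Homog

/-!
# The value at the homogeneous point
-/

namespace Pool.Agent.H98.Izer

open Finset Filter Topology
open Pool.Agent.H68.Izer
open Pool.Agent.H23.BO (pascal pt D_tendsto prod_pairs RHS_tendsto pt_tendsto)

lemma sc_continuous (e n : ℕ) (r q : ℂ) : Continuous fun x : Fin (2 * n) → ℂ => sc e n r q x := by
  have h : ∀ x : Fin (2 * n) → ℂ, sc e n r q x = MvPolynomial.eval x
      (sc e n (MvPolynomial.C r) (MvPolynomial.C q) (MvPolynomial.X)) := by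
    intro x
    have := map_sc (MvPolynomial.eval x) e n (MvPolynomial.C r) (MvPolynomial.C q)
      (MvPolynomial.X)
    simp only [MvPolynomial.eval_C, MvPolynomial.eval_X] at this
    exact this.symm
  simp only [h]
  exact MvPolynomial.continuous_eval _

lemma SS_continuous (q : ℂ) (n : ℕ) : Continuous fun x : Fin (2 * n) → ℂ => SS q n x := by
  unfold SS
  exact continuous_const.mul ((sc_continuous 1 n _ _).mul (sc_continuous 2 n _ _))

/-- the path -/
noncomputable def xt (n : ℕ) (q t : ℂ) (i : Fin (2 * n)) : ℂ :=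
  (q * t ^ (i : ℕ) + (1 - q)) / (t ^ (i : ℕ) + 1)

lemma alt_xt (e n : ℕ) (q t : ℂ) (ht : ∀ i : Fin (2 * n), t ^ (i : ℕ) + 1 ≠ 0) :
    alt e n (fun i => (1 - q) - xt n q t i) (fun i => xt n q t i - q) =
      (∏ i : Fin (2 * n), ((1 - 2 * q) / (t ^ (i : ℕ) + 1)) ^ tot e n) *
        ∏ i : Fin (2 * n), ∏ j ∈ Ioi i, (t ^ ex e j - t ^ ex e i) := by
  unfold alt
  have h : (Matrix.of fun i k : Fin (2 * n) => va e n k ((1 - q) - xt n q t i)
      (xt n q t i - q)) = Matrix.of fun i k : Fin (2 * n) =>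
      (((1 - 2 * q) / (t ^ (i : ℕ) + 1)) ^ tot e n) *
        (Matrix.vandermonde fun k : Fin (2 * n) => t ^ ex e k).transpose i k := by
    ext i k
    simp only [Matrix.of_apply, Matrix.transpose_apply, Matrix.vandermonde_apply]
    have h1 : (1 - q) - xt n q t i = ((1 - 2 * q) / (t ^ (i : ℕ) + 1)) * t ^ (i : ℕ) := by
      unfold xt
      have := ht i
      field_simp
      ring
    have h2 : xt n q t i - q = (1 - 2 * q) / (t ^ (i : ℕ) + 1) := by
      unfold xt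
      have := ht i
      field_simp
      ring
    unfold va
    rw [h1, h2, mul_pow]
    have h3 : ex e k ≤ tot e n := by
      have := ex_le e k.2
      unfold tot
      omega
    have h4 : ((1 - 2 * q) / (t ^ (i : ℕ) + 1)) ^ tot e n =
        ((1 - 2 * q) / (t ^ (i : ℕ) + 1)) ^ ex e k *
          ((1 - 2 * q) / (t ^ (i : ℕ) + 1)) ^ (tot e n - ex e k) := by
      rw [← pow_add]
      congr 1
      omega
    rw [h4, ← pow_mul, ← pow_mul, mul_comm (ex e k) (i : ℕ)]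
    ring
  rw [h, Matrix.det_mul_column, Matrix.det_transpose, Matrix.det_vandermonde]

/-- geometric sums -/
noncomputable def gs (m : ℕ) (t : ℂ) : ℂ := ∑ k ∈ range m, t ^ k

lemma gs_continuous (m : ℕ) : Continuous (gs m) := by
  unfold gs
  fun_prop

lemma gs_one (m : ℕ) : gs m 1 = m := by
  simp [gs]

lemma pow_sub_pow' (t : ℂ) {a b : ℕ} (h : a ≤ b) :
    t ^ b - t ^ a = (t - 1) * (t ^ a * gs (b - a) t) := by
  have h1 := geom_sum_mul t (b - a)
  unfold gs
  have h2 : t ^ b = t ^ a * t ^ (b - a) := by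
    rw [← pow_add]
    congr 1
    omega
  rw [h2]
  linear_combination -t ^ a * h1

lemma ex_lt_ex (e : ℕ) (he : 1 ≤ e) (he2 : e ≤ 2) {i j : ℕ} (h : i < j) : ex e i < ex e j := by
  unfold ex
  rcases Nat.mod_two_eq_zero_or_one i with hi | hi <;>
    rcases Nat.mod_two_eq_zero_or_one j with hj | hj <;>
    simp only [hi, hj, mul_zero, mul_one] <;> omega

theorem sc_half (e n : ℕ) (he : 1 ≤ e) (he2 : e ≤ 2) (q : ℂ) :
    (∏ i : Fin (2 * n), ∏ j ∈ Ioi i, ((2 * q - 1) / 4 * (((j : ℕ) : ℂ) - ((i : ℕ) : ℂ)))) *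
        sc e n (1 - q) q (fun _ => 1 / 2) =
      (∏ _i : Fin (2 * n), ((1 - 2 * q) / 2) ^ tot e n) *
        ∏ i : Fin (2 * n), ∏ j ∈ Ioi i, (((ex e j : ℕ) : ℂ) - ((ex e i : ℕ) : ℂ)) := by
  have hev : ∀ i : Fin (2 * n), ∀ᶠ t in 𝓝 (1 : ℂ), t ^ (i : ℕ) + 1 ≠ 0 := by
    intro i
    have hc : Continuous fun t : ℂ => t ^ (i : ℕ) + 1 := by fun_prop
    apply (hc.tendsto 1).eventually_ne
    norm_num
  have hev2 : ∀ᶠ t in 𝓝 (1 : ℂ), ∀ i : Fin (2 * n), t ^ (i : ℕ) + 1 ≠ 0 :=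
    eventually_all.mpr hev
  have hfin : ∀ i : Fin (2 * n), ((1 : ℂ) ^ (i : ℕ) + 1) ≠ 0 := by
    intro i; norm_num
  have cpow : ∀ i : Fin (2 * n), ContinuousAt (fun t : ℂ => t ^ (i : ℕ) + 1) 1 := by
    intro i
    fun_prop
  have hxc : ContinuousAt (fun t : ℂ => xt n q t) 1 := by
    rw [continuousAt_pi]
    intro i
    unfold xt
    refine ContinuousAt.div ?_ (cpow i) (hfin i)
    fun_prop
  have hx1 : xt n q 1 = fun _ => 1 / 2 := by
    funext i
    unfold xt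
    rw [one_pow]
    norm_num
  set Lf : ℂ → ℂ := fun t => (∏ i : Fin (2 * n), ∏ j ∈ Ioi i, ((2 * q - 1) *
      (t ^ (i : ℕ) * gs ((j : ℕ) - i) t) / ((t ^ (i : ℕ) + 1) * (t ^ (j : ℕ) + 1)))) *
        sc e n (1 - q) q (xt n q t) with hLf
  set Rf : ℂ → ℂ := fun t => (∏ i : Fin (2 * n), ((1 - 2 * q) / (t ^ (i : ℕ) + 1)) ^ tot e n) *
      ∏ i : Fin (2 * n), ∏ j ∈ Ioi i, (t ^ ex e i * gs (ex e j - ex e i) t) with hRf
  have hL1 : ContinuousAt Lf 1 := by
    refine ContinuousAt.mul ?_ ?_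
    · refine tendsto_finsetProd _ fun i _ => tendsto_finsetProd _ fun j _ => ?_
      have h1 : ContinuousAt (fun t : ℂ => (2 * q - 1) *
          (t ^ (i : ℕ) * gs ((j : ℕ) - i) t) / ((t ^ (i : ℕ) + 1) * (t ^ (j : ℕ) + 1))) 1 := by
        refine ContinuousAt.div ?_ ((cpow i).mul (cpow j)) (mul_ne_zero (hfin i) (hfin j))
        have := (gs_continuous ((j : ℕ) - i)).continuousAt (x := (1 : ℂ))
        fun_prop
      exact h1
    · exact ContinuousAt.comp (f := fun t : ℂ => xt n q t) (x := (1 : ℂ))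
        (g := fun x : Fin (2 * n) → ℂ => sc e n (1 - q) q x)
        (sc_continuous e n (1 - q) q).continuousAt hxc
  have hR1 : ContinuousAt Rf 1 := by
    refine ContinuousAt.mul ?_ ?_
    · refine tendsto_finsetProd _ fun i _ => ?_
      have h1 : ContinuousAt (fun t : ℂ => ((1 - 2 * q) / (t ^ (i : ℕ) + 1)) ^ tot e n) 1 :=
        (ContinuousAt.div continuousAt_const (cpow i) (hfin i)).pow _
      exact h1
    · refine tendsto_finsetProd _ fun i _ => tendsto_finsetProd _ fun j _ => ?_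
      have h1 : ContinuousAt (fun t : ℂ => t ^ ex e i * gs (ex e j - ex e i) t) 1 := by
        have := (gs_continuous (ex e j - ex e i)).continuousAt (x := (1 : ℂ))
        fun_prop
      exact h1
  have heq : ∀ᶠ t in 𝓝[≠] (1 : ℂ), Lf t = Rf t := by
    filter_upwards [hev2.filter_mono nhdsWithin_le_nhds, self_mem_nhdsWithin] with t ht ht1
    have ht1' : t - 1 ≠ 0 := sub_ne_zero.mpr ht1
    have h1 := alt_eq e n (1 - q) q (xt n q t)
    rw [alt_xt e n q t ht] at h1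
    have h2 : vd (xt n q t) = (∏ i : Fin (2 * n), ∏ _j ∈ Ioi i, (t - 1)) *
        ∏ i : Fin (2 * n), ∏ j ∈ Ioi i, ((2 * q - 1) *
          (t ^ (i : ℕ) * gs ((j : ℕ) - i) t) / ((t ^ (i : ℕ) + 1) * (t ^ (j : ℕ) + 1))) := by
      unfold vd
      rw [Matrix.det_vandermonde, ← prod_mul_distrib]
      refine prod_congr rfl fun i _ => ?_
      rw [← prod_mul_distrib]
      refine prod_congr rfl fun j hj => ?_
      have hij : (i : ℕ) ≤ j := le_of_lt (show i < j from mem_Ioi.1 hj)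
      have h3 := pow_sub_pow' t hij
      have h4 := ht i
      have h5 := ht j
      have h6 : xt n q t j - xt n q t i = (2 * q - 1) * (t ^ (j : ℕ) - t ^ (i : ℕ)) /
          ((t ^ (i : ℕ) + 1) * (t ^ (j : ℕ) + 1)) := by
        unfold xt
        field_simp
        ring
      rw [h6, h3]
      ring
    have h3 : (∏ i : Fin (2 * n), ∏ j ∈ Ioi i, (t ^ ex e j - t ^ ex e i)) =
        (∏ i : Fin (2 * n), ∏ _j ∈ Ioi i, (t - 1)) *
        ∏ i : Fin (2 * n), ∏ j ∈ Ioi i, (t ^ ex e i * gs (ex e j - ex e i) t) := by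
      rw [← prod_mul_distrib]
      refine prod_congr rfl fun i _ => ?_
      rw [← prod_mul_distrib]
      refine prod_congr rfl fun j hj => ?_
      have hij : (i : ℕ) < j := (show i < j from mem_Ioi.1 hj)
      exact pow_sub_pow' t (ex_lt_ex e he he2 hij).le
    rw [h2, h3] at h1
    have h4 : (∏ i : Fin (2 * n), ∏ _j ∈ Ioi i, (t - 1)) ≠ 0 :=
      prod_ne_zero_iff.2 fun i _ => prod_ne_zero_iff.2 fun j _ => ht1'
    apply mul_left_cancel₀ h4
    simp only [hLf, hRf]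
    linear_combination -h1
  have h1 : Tendsto Lf (𝓝[≠] 1) (𝓝 (Lf 1)) := hL1.tendsto.mono_left nhdsWithin_le_nhds
  have h2 : Tendsto Lf (𝓝[≠] 1) (𝓝 (Rf 1)) :=
    (hR1.tendsto.mono_left nhdsWithin_le_nhds).congr' (heq.mono fun t ht => ht.symm)
  have h3 : Lf 1 = Rf 1 := tendsto_nhds_unique h1 h2
  simp only [hLf, hRf, hx1, one_pow, gs_one, one_mul] at h3
  have e1 : (∏ i : Fin (2 * n), ∏ j ∈ Ioi i, ((2 * q - 1) / 4 *
      (((j : ℕ) : ℂ) - ((i : ℕ) : ℂ)))) = ∏ i : Fin (2 * n), ∏ j ∈ Ioi i,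
        ((2 * q - 1) * (((j : ℕ) - (i : ℕ) : ℕ) : ℂ) / ((1 + 1) * (1 + 1))) := by
    refine prod_congr rfl fun i _ => prod_congr rfl fun j hj => ?_
    have hij : (i : ℕ) < j := (show i < j from mem_Ioi.1 hj)
    rw [Nat.cast_sub hij.le]
    ring
  have e2 : ∏ i : Fin (2 * n), ∏ j ∈ Ioi i, (((ex e j : ℕ) : ℂ) - ((ex e i : ℕ) : ℂ)) =
      ∏ i : Fin (2 * n), ∏ j ∈ Ioi i, ((ex e j - ex e i : ℕ) : ℂ) := by
    refine prod_congr rfl fun i _ => prod_congr rfl fun j hj => ?_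
    have hij : (i : ℕ) < j := (show i < j from mem_Ioi.1 hj)
    rw [Nat.cast_sub (ex_lt_ex e he he2 hij).le]
  have e3 : (2 : ℂ) = 1 + 1 := by norm_num
  rw [e1, e2, h3]
  congr 2
  norm_num

theorem SS_half_sq {q : ℂ} (hq : q ^ 2 - q + 1 = 0) (n : ℕ) :
    (SS q n fun _ => 1 / 2) ^ 2 = (9 / 16) ^ (n * (2 * n - 1)) * (q ^ n)⁻¹ *
        (q • (1 : Matrix (Fin (2 * n)) (Fin (2 * n)) ℂ) + pascal (2 * n)).det := by
  have h1 := RHS_tendsto n q
  have h2 : Tendsto (fun ε : ℂ => (SS q n (pt n ε)) ^ 2) (𝓝[≠] 0)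
      (𝓝 ((SS q n fun _ => 1 / 2) ^ 2)) := by
    refine Tendsto.pow ?_ 2
    have h3 : Tendsto (fun ε : ℂ => pt n ε) (𝓝[≠] 0) (𝓝 (fun _ => 1 / 2)) := by
      rw [tendsto_pi_nhds]
      intro i
      exact pt_tendsto n i
    exact ((SS_continuous q n).tendsto _).comp h3
  refine tendsto_nhds_unique (h2.congr' ?_) h1
  have h3 : ∀ᶠ ε in 𝓝[≠] (0 : ℂ), ∀ i j : Fin (2 * n), D (pt n ε i) (pt n ε j) ≠ 0 := by
    rw [eventually_all]
    intro i
    rw [eventually_all]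
    intro j
    exact (D_tendsto n i j).eventually_ne (by norm_num)
  filter_upwards [h3, self_mem_nhdsWithin] with ε h3 hε
  have hinj : Function.Injective (pt n ε) := by
    intro i j h
    unfold pt at h
    have hε' : ε ≠ 0 := hε
    have h4 : ε * (((i : ℕ) : ℂ) + 1) = ε * (((j : ℕ) : ℂ) + 1) := add_left_cancel h
    have h5 := mul_left_cancel₀ hε' h4
    have h6 : ((i : ℕ) : ℂ) = ((j : ℕ) : ℂ) := add_right_cancel h5
    exact Fin.ext (by exact_mod_cast h6)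
  rw [RHS_eq q n _ hinj h3, SS_sq hq]

end Pool.Agent.H98.Izer
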